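import Pool.Agent.H867Z.Lyn.Defs

/-!
Working form of a weak representation and the elementary labelling rules.
-/

set_option autoImplicit false

namespace Pool.Agent.H867Z.Lyn

universe u

/-- working form of a weak representation -/
structure WR (ι : Type) (D : Type u) where
  R : Set (Option ι) → D → D → Prop
  inter : ∀ {s t x y}, R s x y → R t x y → R (s ∩ t) x y
  mono : ∀ {s t x y}, s ⊆ t → R s x y → R t x y
  top : ∀ x y, R Set.univ x y
  eq_iff : ∀ x y, R {none} x y ↔ x = y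
  symm : ∀ {s x y}, R s x y → R s y x
  cmp : ∀ {s t x y z}, R s x y → R t y z → R (comp s t) x z
  wit : ∀ {s t x z}, R (comp s t) x z → ∃ y, R s x y ∧ R t y z
  bot : ∀ x y, ¬ R ∅ x y

variable {ι : Type} {D : Type u}

lemma ac_nn (q r : Option ι) : r ∈ atomComp none q ↔ r = q := by
  simp [atomComp]

lemma ac_sn (i : ι) (r : Option ι) : r ∈ atomComp (some i) none ↔ r = some i := by
  simp [atomComp]

lemma ac_ssn (i j : ι) : (none : Option ι) ∈ atomComp (some i) (some j) ↔ i = j := by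
  simp [atomComp]

lemma ac_sss (i j k : ι) : some k ∈ atomComp (some i) (some j) ↔
    (i = j ∧ k = i) ∨ (i ≠ j ∧ k ≠ i ∧ k ≠ j) := by
  simp [atomComp]

namespace WR

variable (w : WR ι D)

def E (a : ι) : D → D → Prop := w.R {z | z = none ∨ z = some a}
def L (a : ι) : D → D → Prop := w.R {z | z = some a}
def St : D → D → Prop := w.R {z | z ≠ none}
def C (a : ι) : D → D → Prop := w.R {z | z ≠ some a}
def Ap (a : ι) : D → D → Prop := w.R {z | z ≠ none ∧ z ≠ some a}
def Two (a b : ι) : D → D → Prop := w.R {z | z = some a ∨ z = some b}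
def Dj (a b : ι) : D → D → Prop := w.R {z | z = none ∨ z = some a ∨ z = some b}

variable {w}

lemma cmp' {s t r : Set (Option ι)} {x y z : D} (h1 : w.R s x y) (h2 : w.R t y z)
    (h : ∀ p ∈ s, ∀ q ∈ t, ∀ c ∈ atomComp p q, c ∈ r) : w.R r x z := by
  refine w.mono ?_ (w.cmp h1 h2)
  rintro c ⟨p, hp, q, hq, hc⟩
  exact h p hp q hq c hc

lemma wit' {s t r : Set (Option ι)} {x z : D} (h1 : w.R r x z)
    (h : ∀ c ∈ r, ∃ p ∈ s, ∃ q ∈ t, c ∈ atomComp p q) : ∃ y, w.R s x y ∧ w.R t y z :=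
  w.wit (w.mono (fun c hc => h c hc) h1)

lemma inter' {s t r : Set (Option ι)} {x y : D} (h1 : w.R s x y) (h2 : w.R t x y)
    (h : ∀ c, c ∈ s → c ∈ t → c ∈ r) : w.R r x y :=
  w.mono (fun c hc => h c hc.1 hc.2) (w.inter h1 h2)

lemma finter {x y : D} (F : Finset ι) (s : ι → Set (Option ι)) (h : ∀ e ∈ F, w.R (s e) x y) :
    w.R {c | ∀ e ∈ F, c ∈ s e} x y := by
  classical
  induction F using Finset.induction_on with
  | empty => exact w.mono (fun c _ => by simp) (w.top x y)
  | insert a F ha ih =>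
    refine inter' (h a (Finset.mem_insert_self _ _))
      (ih fun e he => h e (Finset.mem_insert_of_mem he)) ?_
    intro c h1 h2 e he
    rcases Finset.mem_insert.1 he with rfl | he
    · exact h1
    · exact h2 e he

lemma E.refl (a : ι) (x : D) : w.E a x x :=
  w.mono (fun c hc => Or.inl hc) ((w.eq_iff x x).2 rfl)

lemma E.symm {a : ι} {x y : D} (h : w.E a x y) : w.E a y x := w.symm h
lemma L.symm {a : ι} {x y : D} (h : w.L a x y) : w.L a y x := w.symm h
lemma St.symm {x y : D} (h : w.St x y) : w.St y x := w.symm h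
lemma C.symm {a : ι} {x y : D} (h : w.C a x y) : w.C a y x := w.symm h
lemma Ap.symm {a : ι} {x y : D} (h : w.Ap a x y) : w.Ap a y x := w.symm h
lemma Two.symm {a b : ι} {x y : D} (h : w.Two a b x y) : w.Two a b y x := w.symm h
lemma Dj.symm {a b : ι} {x y : D} (h : w.Dj a b x y) : w.Dj a b y x := w.symm h

lemma Two.swap {a b : ι} {x y : D} (h : w.Two a b x y) : w.Two b a x y :=
  w.mono (fun _ hc => Or.symm hc) h

lemma E.trans {a : ι} {x y z : D} (h1 : w.E a x y) (h2 : w.E a y z) : w.E a x z := by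
  refine cmp' h1 h2 ?_
  rintro (_ | p) hp (_ | q) hq (_ | c) hc <;>
    simp_all [ac_nn, ac_sn, ac_ssn, ac_sss]

lemma E.eq {a b : ι} {x y : D} (h1 : w.E a x y) (h2 : w.E b x y) (hab : a ≠ b) : x = y := by
  refine (w.eq_iff x y).1 (inter' h1 h2 ?_)
  rintro (_ | c) h1 h2 <;> simp_all

lemma meet {a b : ι} (hab : a ≠ b) (x y : D) : ∃ z, w.E a x z ∧ w.E b z y := by
  refine wit' (w.top x y) ?_
  rintro (_ | c) _
  · exact ⟨none, by simp, none, by simp, by simp [ac_nn]⟩
  · by_cases h1 : c = a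
    · exact ⟨some a, by simp, none, by simp, by simp [ac_sn, h1]⟩
    · by_cases h2 : c = b
      · exact ⟨none, by simp, some b, by simp, by simp [ac_nn, h2]⟩
      · exact ⟨some a, by simp, some b, by simp, by simp [ac_sss, h1, h2, hab]⟩

lemma L.E {a : ι} {x y : D} (h : w.L a x y) : w.E a x y :=
  w.mono (fun _ hc => Or.inr hc) h

lemma L.ap {a : ι} {x y : D} (h : w.L a x y) {b : ι} (hb : b ≠ a) : w.Ap b x y := by
  refine w.mono ?_ h
  rintro c rfl
  simp [hb.symm]

lemma L.ne {a : ι} {x : D} (h : w.L a x x) : False := by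
  refine w.bot x x (inter' h ((w.eq_iff x x).2 rfl) ?_)
  rintro c h1 h2
  simp_all

lemma E.apl {a : ι} {x x' y : D} (h1 : w.E a x x') (h2 : w.Ap a x y) : w.Ap a x' y := by
  refine cmp' h1.symm h2 ?_
  rintro (_ | p) hp (_ | q) hq (_ | c) hc <;>
    simp_all [ac_nn, ac_sn, ac_ssn, ac_sss] <;> grind

lemma E.apr {a : ι} {x y y' : D} (h1 : w.E a y y') (h2 : w.Ap a x y) : w.Ap a x y' :=
  (h1.apl h2.symm).symm

lemma Ap.st {a : ι} {x y : D} (h : w.Ap a x y) : w.St x y :=
  w.mono (fun _ hc => hc.1) h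

lemma Ap.c {a : ι} {x y : D} (h : w.Ap a x y) : w.C a x y :=
  w.mono (fun _ hc => hc.2) h

lemma St.ap {a : ι} {x y : D} (h : w.St x y) (h2 : w.C a x y) : w.Ap a x y :=
  inter' h h2 fun _ h1 h2 => ⟨h1, h2⟩

lemma E.l {a : ι} {x y : D} (h : w.E a x y) (h2 : w.St x y) : w.L a x y := by
  refine inter' h h2 ?_
  rintro c h1 h2
  simp_all

lemma Two.ap {a b : ι} {x y : D} (h : w.Two a b x y) {e : ι} (ha : e ≠ a) (hb : e ≠ b) :
    w.Ap e x y := by
  refine w.mono ?_ h
  rintro c (rfl | rfl) <;> simp [ha.symm, hb.symm]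

lemma Two.dj {a b : ι} {x y : D} (h : w.Two a b x y) : w.Dj a b x y :=
  w.mono (fun _ hc => Or.inr hc) h

lemma Dj.c {a b : ι} {x y : D} (h : w.Dj a b x y) {e : ι} (ha : e ≠ a) (hb : e ≠ b) :
    w.C e x y := by
  refine w.mono ?_ h
  rintro c (rfl | rfl | rfl) <;> simp [ha.symm, hb.symm]

lemma Two.l {a b : ι} {x y : D} (h : w.Two a b x y) (h2 : w.Ap b x y) : w.L a x y := by
  refine inter' h h2 ?_
  rintro c h1 h2
  rcases h1 with h1 | h1 <;> simp_all

/-- disjoint labels give a diversity label -/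
lemma st_of_disj {s t : Set (Option ι)} {x y z : D} (h1 : w.R s x y) (h2 : w.R t y z)
    (h : ∀ c, c ∈ s → c ∈ t → False) : w.St x z := by
  refine cmp' h1 h2 ?_
  rintro (_ | p) hp (_ | q) hq (_ | c) hc
  all_goals simp_all [ac_nn, ac_sn, ac_ssn, ac_sss]

lemma L.st_c {d : ι} {x y z : D} (h1 : w.L d x y) (h2 : w.C d y z) : w.St x z :=
  st_of_disj h1 h2 fun _ a b => b a

lemma Two.st_c {a d : ι} {x y z : D} (h1 : w.Two a d x y) (h2 : w.C a y z) (h3 : w.C d y z) :
    w.St x z :=
  st_of_disj h1 (w.inter h2 h3) fun _ a b => a.elim b.1 b.2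

lemma L.c_dj {a b : ι} {x y z : D} (h1 : w.L a x y) (h2 : w.Dj a b y z) (hab : a ≠ b) :
    w.C b x z := by
  refine cmp' h1 h2 ?_
  rintro (_ | p) hp (_ | q) hq (_ | c) hc <;>
    simp_all [ac_nn, ac_sn, ac_ssn, ac_sss] <;> grind

lemma wit1 {a j k : ι} {x A : D} (h : w.Ap a x A) (hjk : j ≠ k) (hj : j ≠ a) (hk : k ≠ a) :
    ∃ p, w.L a x p ∧ w.Two j k p A := by
  refine wit' h ?_
  rintro (_ | c) hc
  · simp at hc
  · have hca : c ≠ a := by simpa using hc
    by_cases h1 : c = j
    · exact ⟨some a, by simp, some k, by simp, by simp [ac_sss, h1, hjk, hj, hk.symm]⟩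
    · exact ⟨some a, by simp, some j, by simp, by simp [ac_sss, h1, hca, hj.symm]⟩

lemma wit2 {a b : ι} {z v : D} (h : w.C b z v) (hab : a ≠ b) :
    ∃ u, w.L a z u ∧ w.Two a b u v := by
  refine wit' h ?_
  rintro (_ | c) hc
  · exact ⟨some a, by simp, some a, by simp, by simp [ac_ssn]⟩
  · have hcb : c ≠ b := by simpa using hc
    by_cases h1 : c = a
    · exact ⟨some a, by simp, some a, by simp, by simp [ac_sss, h1]⟩
    · exact ⟨some a, by simp, some b, by simp, by simp [ac_sss, h1, hcb, hab]⟩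

lemma wit3 {a j k : ι} {z v : D} (h : w.St z v) (hjk : j ≠ k) (hj : j ≠ a) (hk : k ≠ a) :
    ∃ p, w.L a z p ∧ w.Dj j k p v := by
  refine wit' h ?_
  rintro (_ | c) hc
  · simp at hc
  · by_cases hca : c = a
    · exact ⟨some a, by simp, none, by simp, by simp [ac_sn, hca]⟩
    · by_cases h1 : c = j
      · exact ⟨some a, by simp, some k, by simp, by simp [ac_sss, h1, hjk, hj, hk.symm]⟩
      · exact ⟨some a, by simp, some j, by simp, by simp [ac_sss, h1, hca, hj.symm]⟩

variable [Fintype ι]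

lemma two_of_ap {a b c : ι} {x y : D} (hca : c ≠ a) (hcb : c ≠ b)
    (h : ∀ e, e ≠ a → e ≠ b → w.Ap e x y) : w.Two a b x y := by
  classical
  have := finter (w := w) (x := x) (y := y) (Finset.univ.filter fun e => e ≠ a ∧ e ≠ b)
    (fun e => {z | z ≠ none ∧ z ≠ some e}) (fun e he => by
      simp only [Finset.mem_filter, Finset.mem_univ, true_and] at he
      exact h e he.1 he.2)
  refine w.mono ?_ this
  rintro (_ | z) hz
  · have := hz c (by simp [hca, hcb])
    simp at this
  · by_contra hcon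
    simp only [Set.mem_ofPred_eq, Option.some.injEq, not_or] at hcon
    have := hz z (by simp [hcon.1, hcon.2])
    simp at this

lemma dj_of_c {a b : ι} {x y : D} (h : ∀ e, e ≠ a → e ≠ b → w.C e x y) : w.Dj a b x y := by
  classical
  have := finter (w := w) (x := x) (y := y) (Finset.univ.filter fun e => e ≠ a ∧ e ≠ b)
    (fun e => {z | z ≠ some e}) (fun e he => by
      simp only [Finset.mem_filter, Finset.mem_univ, true_and] at he
      exact h e he.1 he.2)
  refine w.mono ?_ this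
  rintro (_ | z) hz
  · simp
  · by_contra hcon
    simp only [Set.mem_ofPred_eq, Option.some.injEq, not_or] at hcon
    have := hz z (by simp [hcon.2.1, hcon.2.2])
    simp at this

omit [Fintype ι] in
/-- apartness on a line is carried along by a projection -/
lemma L.proj {a a' c : ι} {x y x' y' : D} (h : w.L a x y) (hx : w.E c x x') (hy : w.E c y y')
    (h' : w.E a' x' y') (hc : c ≠ a) : w.L a' x' y' :=
  h'.l (hy.apr (hx.apl (h.ap hc))).st

end WR

lemma fresh [Fintype ι] (h5 : 5 ≤ Fintype.card ι) (a b c d : ι) :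
    ∃ e, e ≠ a ∧ e ≠ b ∧ e ≠ c ∧ e ≠ d := by
  classical
  by_contra hcon
  push Not at hcon
  have hsub : (Finset.univ : Finset ι) ⊆ {a, b, c, d} := by
    intro e _
    by_cases h1 : e = a
    · simp [h1]
    by_cases h2 : e = b
    · simp [h2]
    by_cases h3 : e = c
    · simp [h3]
    simp [hcon e h1 h2 h3]
  have h1 := Finset.card_le_card hsub
  have h2 : ({a, b, c, d} : Finset ι).card ≤ 4 := Finset.card_le_four
  rw [Finset.card_univ] at h1
  omega

end Pool.Agent.H867Z.Lyn
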