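import Pool.Agent.H867Z.Lyn.Basic

/-!
Selector triples on a line and complementary pairs in a pencil of lines.
-/

set_option autoImplicit false

namespace Pool.Agent.H867Z.Lyn

universe u

variable {ι : Type} {D : Type u}

namespace WR

variable (w : WR ι D)

/-- `X` is a selector between the apart points `u`, `v` of an `a`-line -/
def Star (a : ι) (u v X : D) : Prop :=
  w.L a u v ∧ w.E a u X ∧ ∀ z, w.L a z u → w.L a z v → w.L a z X

/-- complementary objects `u` (on the `a`-line through `X`) and `v` (on the `b`-line) -/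
def Cp (X : D) (a : ι) (u : D) (b : ι) (v : D) : Prop :=
  w.E a X u ∧ w.E b X v ∧ (a = b → w.Star a u v X) ∧ (a ≠ b → w.Two a b u v)

variable {w}

lemma Star.symm {a : ι} {u v X : D} (h : w.Star a u v X) : w.Star a v u X :=
  ⟨h.1.symm, h.1.E.symm.trans h.2.1, fun z h1 h2 => h.2.2 z h2 h1⟩

lemma Star.proj {a a' c : ι} {u v X u' v' X' : D} (h : w.Star a u v X) (hu : w.E c u u')
    (hv : w.E c v v') (hX : w.E c X X') (h1 : w.E a' u' v') (h2 : w.E a' u' X') (hc : c ≠ a)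
    (hc' : c ≠ a') : w.Star a' u' v' X' := by
  refine ⟨h.1.proj hu hv h1 hc, h2, fun z' hz1 hz2 => ?_⟩
  obtain ⟨z, hz, hzu⟩ := meet (w := w) hc z' u
  have e1 : w.L a z u := hz1.proj hz hu.symm hzu hc'
  have e2 : w.L a z v := hz2.proj hz hv.symm (hzu.trans h.1.E) hc'
  exact (h.2.2 z e1 e2).proj hz.symm hX (hz1.E.trans h2) hc

lemma apex_ap {c j k : ι} {g g' A : D} (h : w.L c g g') (hj : w.E j A g) (hk : w.E k A g')
    (hkc : k ≠ c) (hjc : j ≠ c) : w.Ap c A g :=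
  (hj.l (hk.symm.apr (h.ap hkc)).st.symm).ap hjc.symm

lemma Star.apex [Fintype ι] {c j k : ι} {g g' x A : D} (h : w.Star c g g' x) (hj : w.E j A g)
    (hk : w.E k A g') (hjk : j ≠ k) (hjc : j ≠ c) (hkc : k ≠ c) : w.Two j k A x := by
  have hA : w.Ap c A g := apex_ap h.1 hj hk hkc hjc
  refine two_of_ap hjc.symm hkc.symm fun f hfj hfk => ?_
  by_cases hfc : f = c
  · subst hfc
    exact h.2.1.apr hA
  · obtain ⟨p, hp1, hp2⟩ := meet (w := w) hfc A g
    have hL : w.L f A p := hp1.l (hp2.symm.apr hA).st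
    have e1 : w.L c p g := hp2.l (hj.apl (hL.ap hfj.symm)).st.symm
    have e2 : w.L c p g' := (hp2.trans h.1.E).l (hk.apl (hL.ap hfk.symm)).st.symm
    exact hp1.symm.apl ((h.2.2 p e1 e2).ap hfc)

lemma star_of_apex {c j k : ι} {g g' x A : D} (h : w.L c g g') (hx : w.E c g x) (hj : w.E j A g)
    (hk : w.E k A g') (hjc : j ≠ c) (hkc : k ≠ c) (h2 : w.Two j k A x) : w.Star c g g' x := by
  refine ⟨h, hx, fun z hz1 hz2 => ?_⟩
  have e1 : w.Ap j A z := (hj.symm.apr (hz1.ap hjc)).symm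
  have e2 : w.Ap k A z := (hk.symm.apr (hz2.ap hkc)).symm
  exact (hz1.E.trans hx).l (h2.symm.st_c e1.c e2.c).symm

lemma Star.two [Fintype ι] {a b e : ι} {u v X v' : D} (h : w.Star a u v X) (hb : b ≠ a)
    (hea : e ≠ a) (heb : e ≠ b) (h1 : w.E b X v') (h2 : w.E e v v') : w.Two a b u v' := by
  obtain ⟨A, hA1, hA2⟩ := meet (w := w) heb.symm u v
  have hs : w.Star e A v v' := h.proj hA1 (E.refl b v) h1 hA2 (hA2.trans h2) hb heb.symm
  exact (hs.apex hA1 h.1.E hb heb.symm hea.symm).swap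

lemma star_of_two {a b e : ι} {u v X v' : D} (hu : w.E a X u) (hv' : w.E b X v') (hab : a ≠ b)
    (h : w.Two a b u v') (hea : e ≠ a) (heb : e ≠ b) (h2 : w.E e v' v) (hv : w.E a X v) :
    w.Star a u v X := by
  refine ⟨(hu.symm.trans hv).l (h2.apr (h.ap hea heb)).st, hu.symm, fun z hz1 hz2 => ?_⟩
  have e1 : w.C b z v' := hz1.c_dj h.dj hab
  have e2 : w.St z v' := (h2.symm.apr (hz2.ap hea)).st
  exact (hz1.E.trans hu.symm).l (hv'.symm.apr (e2.ap e1)).st

/-- a selector apart from one end is the other end -/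
lemma Star.eq_of [Fintype ι] (h5 : 5 ≤ Fintype.card ι) {a : ι} {u v X : D} (h : w.Star a u v X)
    (hX : w.L a X v) : X = u := by
  obtain ⟨j, hja, -⟩ := fresh h5 a a a a
  obtain ⟨k, hka, hkj, -⟩ := fresh h5 a j a a
  obtain ⟨A, hA1, hA2⟩ := meet (w := w) hkj.symm u v
  have h2 := h.apex hA1.symm hA2 hkj.symm hja hka
  have h3 : w.L j A X := h2.l (hA2.symm.apr (hX.ap hka)).symm
  exact (h3.E.symm.trans hA1.symm).eq h.2.1.symm hja

lemma Cp.symm {X u v : D} {a b : ι} (h : w.Cp X a u b v) : w.Cp X b v a u :=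
  ⟨h.2.1, h.1, fun e => by subst e; exact (h.2.2.1 rfl).symm,
    fun e => (h.2.2.2 (Ne.symm e)).symm.swap⟩

lemma Cp.star {X u v : D} {a : ι} (h : w.Cp X a u a v) : w.Star a u v X := h.2.2.1 rfl

lemma Cp.two {X u v : D} {a b : ι} (h : w.Cp X a u b v) (hab : a ≠ b) : w.Two a b u v :=
  h.2.2.2 hab

lemma Star.cp {X u v : D} {a : ι} (h : w.Star a u v X) : w.Cp X a u a v :=
  ⟨h.2.1.symm, h.2.1.symm.trans h.1.E, fun _ => h, fun e => (e rfl).elim⟩

lemma cp_of_two {X u v : D} {a b : ι} (hu : w.E a X u) (hv : w.E b X v) (hab : a ≠ b)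
    (h : w.Two a b u v) : w.Cp X a u b v :=
  ⟨hu, hv, fun e => (hab e).elim, fun _ => h⟩

variable [Fintype ι]

lemma Cp.move0 {X u v v' : D} {a b b' f : ι} (h : w.Cp X a u b v) (h1 : w.E b' X v')
    (h2 : w.E f v v') (hfb : f ≠ b) (hfb' : f ≠ b') (hfa : f ≠ a) : w.Cp X a u b' v' := by
  obtain ⟨t, ht1, ht2⟩ := meet (w := w) hfa v X
  have hs : w.Star a u t X := by
    by_cases hab : a = b
    · subst hab
      have : v = t := ht1.eq (h.2.1.symm.trans ht2.symm) hfa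
      rw [← this]
      exact h.star
    · exact star_of_two h.1 h.2.1 hab (h.two hab) hfa hfb ht1 ht2.symm
  by_cases hab : a = b'
  · subst hab
    have : t = v' := (ht1.symm.trans h2).eq (ht2.trans h1) hfa
    rw [← this]
    exact hs.cp
  · exact cp_of_two h.1 h1 hab (hs.two (Ne.symm hab) hfa hfb' h1 (ht1.symm.trans h2))

/-- invariance under projections inside the pencil -/
lemma Cp.move (h5 : 5 ≤ Fintype.card ι) {X u v v' : D} {a b b' f : ι} (h : w.Cp X a u b v)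
    (h1 : w.E b' X v') (h2 : w.E f v v') (hfb : f ≠ b) (hfb' : f ≠ b') : w.Cp X a u b' v' := by
  by_cases hfa : f = a
  · subst hfa
    obtain ⟨y, hyf, hyb, hyb', -⟩ := fresh h5 f b b' b
    obtain ⟨g, hgf, hgy, hgb, hgb'⟩ := fresh h5 f y b b'
    obtain ⟨t, ht1, ht2⟩ := meet (w := w) hgy u X
    have c1 : w.Cp X b v y t := h.symm.move0 ht2.symm ht1 hgf hgy hgb
    have c2 : w.Cp X y t b' v' := c1.symm.move0 h1 h2 hfb hfb' hyf.symm
    exact (c2.symm.move0 h.1 ht1.symm hgy hgf hgb').symm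
  · exact h.move0 h1 h2 hfb hfb' hfa

/-- a complementary object on any prescribed line -/
lemma Cp.exists_on (h5 : 5 ≤ Fintype.card ι) {X u v : D} {a b : ι} (h : w.Cp X a u b v) (d : ι) :
    ∃ f v', f ≠ b ∧ f ≠ d ∧ w.E f v v' ∧ w.E d X v' ∧ w.Cp X a u d v' := by
  obtain ⟨f, hfb, hfd, -⟩ := fresh h5 b d d d
  obtain ⟨t, ht1, ht2⟩ := meet (w := w) hfd v X
  exact ⟨f, t, hfb, hfd, ht1, ht2.symm, h.move h5 ht2.symm ht1 hfb hfd⟩

/-- the two diagonals of a rectangle -/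
lemma Two.rect (h5 : 5 ≤ Fintype.card ι) {b c : ι} {X Y P Q : D} (h : w.Two b c X Y)
    (hbc : b ≠ c) (h1 : w.E c X P) (h2 : w.E b P Y) (h3 : w.E b X Q) (h4 : w.E c Q Y) :
    w.Two b c P Q := by
  obtain ⟨a, hab, hac, -⟩ := fresh h5 b c c c
  obtain ⟨O, hO1, hO2⟩ := meet (w := w) hab X Y
  obtain ⟨V, hV1, hV2⟩ := meet (w := w) hac X Y
  have hA : w.Ap a X Y := h.ap hab hac
  have hL : w.L b Y O := hO2.symm.l (hO1.apl hA).st.symm
  have hOV : w.L a O V := (hO1.symm.trans hV1).l (hV2.symm.apr (hL.ap hbc.symm).symm).st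
  have hs : w.Star a O V X := star_of_apex hOV hO1.symm hO2.symm hV2.symm hab.symm hac.symm h.symm
  have c1 : w.Cp X a O b Q := hs.cp.move h5 h3 (hV2.trans h4.symm) hac.symm hbc.symm
  have c2 : w.Cp X b Q c P := c1.symm.move h5 h1 (hO2.trans h2.symm) hab.symm hbc
  exact (c2.two hbc).symm

lemma Cp.same1 (h5 : 5 ≤ Fintype.card ι) {X u u' v : D} {a d b : ι} (h : w.Cp X a u b v)
    (h' : w.Cp X d u' b v) (had : a ≠ d) : w.C a u u' := by
  obtain ⟨f, t, hfb, hfd, ht1, ht2, hc⟩ := h.exists_on h5 d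
  have hc' : w.Cp X d u' d t := h'.move h5 ht2 ht1 hfb hfd
  exact (hc'.star.1.c_dj (hc.two had).swap.symm.dj had.symm).symm

lemma Cp.same2 (h5 : 5 ≤ Fintype.card ι) {X u u' v : D} {a d b : ι} (hu : w.E a X u)
    (had : a ≠ d) (h1 : w.C a u u') (h2 : w.C d u u') (h : w.Cp X d u' b v) : w.Cp X a u b v := by
  have key : ∀ b' v', b' ≠ a → w.Cp X d u' b' v' → w.Cp X a u b' v' := by
    intro b' v' hb' h'
    obtain ⟨c, hca, hcb, -⟩ := fresh h5 a b' a a
    refine cp_of_two hu h'.2.1 hb'.symm (two_of_ap hca hcb fun e hea heb => ?_)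
    obtain ⟨t, ht1, ht2⟩ := meet (w := w) hea v' X
    have hc : w.Cp X d u' a t := h'.move h5 ht2.symm ht1 heb hea
    have hst : w.St t u := (hc.two had.symm).symm.st_c h2.symm h1.symm
    exact ht1.symm.apr (((ht2.trans hu).l hst).ap hea).symm
  by_cases hb : b = a
  · subst hb
    obtain ⟨c, hcb, -⟩ := fresh h5 b b b b
    obtain ⟨f, t, hfb, hfc, ht1, -, hc⟩ := h.exists_on h5 c
    exact (key c t hcb hc).move h5 h.2.1 ht1.symm hfc hfb
  · exact key b v hb h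

/-- complementarity is a rectangular relation -/
lemma Cp.rect (h5 : 5 ≤ Fintype.card ι) {X u u' v v' : D} {a a' b b' : ι} (h1 : w.Cp X a u b v)
    (h2 : w.Cp X a' u' b v) (h3 : w.Cp X a' u' b' v') : w.Cp X a u b' v' := by
  obtain ⟨d, hda, -⟩ := fresh h5 a a a a
  obtain ⟨f, t, hfa, hfd, ht1, ht2, hc⟩ := h2.symm.exists_on h5 d
  have hc' : w.Cp X b' v' d t := h3.symm.move h5 ht2 ht1 hfa hfd
  exact Cp.same2 h5 h1.1 hda.symm (h1.same1 h5 hc.symm hda.symm)
    (hc.symm.same1 h5 h1 hda).symm hc'.symm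

/-- simultaneous transport of a complementary pair -/
lemma Cp.transport (h5 : 5 ≤ Fintype.card ι) {X X' u v u' v' : D} {a b a' b' c : ι}
    (h : w.Cp X a u b v) (hX : w.E c X X') (ha : c ≠ a) (hb : c ≠ b) (ha' : c ≠ a') (hb' : c ≠ b')
    (hu' : w.E a' X' u') (hv' : w.E b' X' v') (hu : w.E c u u') (hv : w.E c v v') :
    w.Cp X' a' u' b' v' := by
  obtain ⟨t, ht1, ht2⟩ := meet (w := w) ha v X
  obtain ⟨t', ht1', ht2'⟩ := meet (w := w) ha' v X'
  have s1 : w.Star a u t X := (h.move h5 ht2.symm ht1 hb ha).star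
  have s2 : w.Star a' u' t' X' :=
    s1.proj hu (ht1.symm.trans ht1') hX (hu'.symm.trans ht2'.symm) hu'.symm ha ha'
  exact s2.cp.move h5 hv' (ht1'.symm.trans hv) ha' hb'

end WR

end Pool.Agent.H867Z.Lyn
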