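import Pool.Agent.H867Z.Lyn.Cp

/-!
Contexts (maximal rectangles of complementary objects at a point), their transport along lines,
and relative apartness.
-/

set_option autoImplicit false

namespace Pool.Agent.H867Z.Lyn

universe u

variable {ι : Type} {D : Type u}

/-- a maximal rectangle of complementary objects at the point `X` -/
structure Ctx (w : WR ι D) where
  X : D
  U : ι → D → Prop
  V : ι → D → Prop
  ne : ∃ a u b v, U a u ∧ V b v
  cp : ∀ {a u b v}, U a u → V b v → w.Cp X a u b v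
  maxU : ∀ {a u b v}, V b v → w.Cp X a u b v → U a u
  maxV : ∀ {a u b v}, U a u → w.Cp X a u b v → V b v

namespace Ctx

open WR

variable {w : WR ι D}

def swap (S : Ctx w) : Ctx w where
  X := S.X
  U := S.V
  V := S.U
  ne := by
    obtain ⟨a, u, b, v, h1, h2⟩ := S.ne
    exact ⟨b, v, a, u, h2, h1⟩
  cp := fun h1 h2 => (S.cp h2 h1).symm
  maxU := fun h1 h2 => S.maxV h1 h2.symm
  maxV := fun h1 h2 => S.maxU h1 h2.symm

lemma ext' {S T : Ctx w} (h1 : S.X = T.X) (h2 : S.U = T.U) (h3 : S.V = T.V) : S = T := by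
  cases S
  cases T
  simp only at h1 h2 h3
  subst h1 h2 h3
  rfl

lemma eq_of_U {S T : Ctx w} (h1 : S.X = T.X) {a : ι} {u : D} (h2 : S.U a u) (h3 : T.U a u) :
    S = T := by
  have hV : S.V = T.V := by
    funext b v
    apply propext
    constructor
    · intro h
      exact T.maxV h3 (h1 ▸ S.cp h2 h)
    · intro h
      exact S.maxV h2 (h1 ▸ T.cp h3 h)
  refine ext' h1 ?_ hV
  obtain ⟨_, _, b, v, -, hv⟩ := S.ne
  have hv' : T.V b v := hV ▸ hv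
  funext a' u'
  apply propext
  constructor
  · intro h
    exact T.maxU hv' (h1 ▸ S.cp h hv)
  · intro h
    exact S.maxU hv (h1 ▸ T.cp h hv')

lemma lineU {S : Ctx w} {a : ι} {u : D} (h : S.U a u) : w.E a S.X u := by
  obtain ⟨_, _, b, v, -, hv⟩ := S.ne
  exact (S.cp h hv).1

lemma lineV {S : Ctx w} {a : ι} {u : D} (h : S.V a u) : w.E a S.X u := lineU (S := S.swap) h

/-- transport of a context along a `c`-line -/
def Tr (c : ι) (S T : Ctx w) : Prop :=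
  w.E c S.X T.X ∧ ∃ a u a' u', S.U a u ∧ T.U a' u' ∧ c ≠ a ∧ c ≠ a' ∧ w.E c u u'

/-- `z` is apart from the base point on the support of the context -/
def Sup (S : Ctx w) (c : ι) (z : D) : Prop := ∃ v, S.V c v ∧ w.L c v z

/-- the support of `T` is contained in the support of `S` -/
def Inc (S T : Ctx w) : Prop := S.X = T.X ∧ ∃ c u v, S.U c u ∧ T.V c v ∧ w.L c u v

lemma Tr.symm {c : ι} {S T : Ctx w} (h : Tr c S T) : Tr c T S := by
  obtain ⟨h1, a, u, a', u', h2, h3, h4, h5, h6⟩ := h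
  exact ⟨h1.symm, a', u', a, u, h3, h2, h5, h4, h6.symm⟩

variable [Fintype ι] [h5 : Fact (5 ≤ Fintype.card ι)]

/-- the context generated by a complementary pair -/
def gen {X u v : D} {a b : ι} (h : w.Cp X a u b v) : Ctx w where
  X := X
  U := fun a' u' => w.Cp X a' u' b v
  V := fun b' v' => w.Cp X a u b' v'
  ne := ⟨a, u, b, v, h, h⟩
  cp := fun h1 h2 => h1.rect h5.out h h2
  maxU := fun h1 h2 => h2.rect h5.out h1 h
  maxV := fun h1 h2 => h.rect h5.out h1 h2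

lemma moveV {S : Ctx w} {b b' f : ι} {v v' : D} (h : S.V b v) (h1 : w.E b' S.X v')
    (h2 : w.E f v v') (hfb : f ≠ b) (hfb' : f ≠ b') : S.V b' v' := by
  obtain ⟨a, u, _, _, hu, -⟩ := S.ne
  exact S.maxV hu ((S.cp hu h).move h5.out h1 h2 hfb hfb')

lemma moveU {S : Ctx w} {b b' f : ι} {v v' : D} (h : S.U b v) (h1 : w.E b' S.X v')
    (h2 : w.E f v v') (hfb : f ≠ b) (hfb' : f ≠ b') : S.U b' v' :=
  moveV (S := S.swap) h h1 h2 hfb hfb'

lemma exV (S : Ctx w) (d : ι) : ∃ v, S.V d v := by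
  obtain ⟨a, u, b, v, hu, hv⟩ := S.ne
  obtain ⟨_, t, -, -, -, -, hc⟩ := (S.cp hu hv).exists_on h5.out d
  exact ⟨t, S.maxV hu hc⟩

lemma exU (S : Ctx w) (d : ι) : ∃ v, S.U d v := exV S.swap d

lemma Tr.V {c b b' : ι} {S T : Ctx w} {v v' : D} (h : Tr c S T) (hv : S.V b v) (hb : c ≠ b)
    (hb' : c ≠ b') (h1 : w.E b' T.X v') (h2 : w.E c v v') : T.V b' v' := by
  obtain ⟨hX, a, u, a', u', hu, hu', ha, ha', huu⟩ := h
  exact T.maxV hu' ((S.cp hu hv).transport h5.out hX ha hb ha' hb' (lineU hu') h1 huu h2)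

lemma Tr.swap {c : ι} {S T : Ctx w} (h : Tr c S T) : Tr c S.swap T.swap := by
  obtain ⟨d, hd, -⟩ := fresh h5.out c c c c
  obtain ⟨v, hv⟩ := S.exV d
  obtain ⟨t, ht1, ht2⟩ := meet (w := w) hd.symm v T.X
  exact ⟨h.1, d, v, d, t, hv, h.V hv hd.symm hd.symm ht2.symm ht1, hd.symm, hd.symm, ht1⟩

lemma Tr.U {c b b' : ι} {S T : Ctx w} {v v' : D} (h : Tr c S T) (hv : S.U b v) (hb : c ≠ b)
    (hb' : c ≠ b') (h1 : w.E b' T.X v') (h2 : w.E c v v') : T.U b' v' :=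
  h.swap.V hv hb hb' h1 h2

lemma Tr.refl (c : ι) (S : Ctx w) : Tr c S S := by
  obtain ⟨d, hd, -⟩ := fresh h5.out c c c c
  obtain ⟨u, hu⟩ := S.exU d
  exact ⟨E.refl _ _, d, u, d, u, hu, hu, hd.symm, hd.symm, E.refl _ _⟩

lemma Tr.trans {c : ι} {S T R : Ctx w} (h : Tr c S T) (h' : Tr c T R) : Tr c S R := by
  obtain ⟨hX, a, u, a', u', hu, hu', ha, ha', huu⟩ := h
  obtain ⟨t, ht1, ht2⟩ := meet (w := w) ha' u' R.X
  exact ⟨hX.trans h'.1, a, u, a', t, hu, h'.U hu' ha' ha' ht2.symm ht1, ha, ha', huu.trans ht1⟩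

lemma Tr.unique {c : ι} {S T T' : Ctx w} (h : Tr c S T) (h' : Tr c S T') (hX : T.X = T'.X) :
    T = T' := by
  obtain ⟨-, a, u, a', u', hu, hu', ha, ha', huu⟩ := h
  exact eq_of_U hX hu' (h'.U hu ha ha' (hX ▸ lineU hu') huu)

lemma exists_tr (c : ι) (S : Ctx w) {Y : D} (hY : w.E c S.X Y) : ∃ T : Ctx w, T.X = Y ∧ Tr c S T := by
  obtain ⟨d, hd, -⟩ := fresh h5.out c c c c
  obtain ⟨u, hu⟩ := S.exU d
  obtain ⟨v, hv⟩ := S.exV d
  obtain ⟨u', hu1, hu2⟩ := meet (w := w) hd.symm u Y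
  obtain ⟨v', hv1, hv2⟩ := meet (w := w) hd.symm v Y
  have hc : w.Cp Y d u' d v' := (S.cp hu hv).transport h5.out hY hd.symm hd.symm hd.symm hd.symm
    hu2.symm hv2.symm hu1 hv1
  exact ⟨gen hc, rfl, hY, d, u, d, u', hu, hc, hd.symm, hd.symm, hu1⟩

/-- a short move can be reversed -/
lemma Tr.revU {c : ι} {S T : Ctx w} (h : Tr c S T) (hu : S.U c T.X) : T.U c S.X := by
  obtain ⟨b, hb, -⟩ := fresh h5.out c c c c
  obtain ⟨v, hv⟩ := S.exV b
  obtain ⟨t, ht1, ht2⟩ := meet (w := w) hb.symm v T.X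
  have ht : T.V b t := h.V hv hb.symm hb.symm ht2.symm ht1
  have h2 : w.Two b c T.X v := ((S.cp hu hv).two hb.symm).swap
  have h3 : w.Two b c S.X t := h2.rect h5.out hb h.1.symm (lineV hv) ht2.symm ht1.symm
  exact T.maxU ht (cp_of_two h.1.symm ht2.symm hb.symm h3.swap)

lemma Tr.revV {c : ι} {S T : Ctx w} (h : Tr c S T) (hu : S.V c T.X) : T.V c S.X :=
  h.swap.revU hu

lemma tr_of_U {c : ι} {S T : Ctx w} (h1 : S.U c T.X) (h2 : T.U c S.X) : Tr c S T := by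
  obtain ⟨T', hT, htr⟩ := exists_tr c S (lineU h1)
  have : T' = T := eq_of_U hT (htr.revU (hT ▸ h1)) h2
  exact this ▸ htr

/-- transport around a triangle with a short side -/
lemma tri {a b c : ι} {S T R : Ctx w} (h1 : Tr c S T) (h2 : Tr b T R) (hab : a ≠ b) (hac : a ≠ c)
    (hbc : b ≠ c) (h : S.U a R.X) : Tr a S R := by
  have e1 : S.U c T.X := moveU h h1.1 h2.1.symm hab.symm hbc
  have e2 : T.U b R.X := moveU (h1.revU e1) h2.1 (lineU h) hac hab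
  have e3 : R.U a S.X := moveU (h2.revU e2) (lineU h).symm h1.1.symm hbc.symm hac.symm
  exact tr_of_U h e3

/-- transport around a parallelogram with a short side -/
lemma par {b c : ι} {S T S' T' : Ctx w} (h1 : Tr c S T) (h2 : Tr b S S') (h3 : Tr b T T')
    (hbc : b ≠ c) (hE : w.E c S'.X T'.X) (h : S.U c T.X) : Tr c S' T' ∧ S'.U c T'.X := by
  have e1 : S'.U c T'.X := h2.U h hbc hbc hE h3.1
  have e2 : T'.U c S'.X := h3.U (h1.revU h) hbc hbc hE.symm h2.1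
  exact ⟨tr_of_U e1 e2, e1⟩

lemma Tr.unswap {c : ι} {S T : Ctx w} (h : Tr c S.swap T.swap) : Tr c S T := h.swap

lemma sup_of_c {S : Ctx w} {b c : ι} {u z : D} (hu : S.U b u) (hb : b ≠ c) (hz : w.E c S.X z)
    (h : w.C b u z) : S.Sup c z := by
  obtain ⟨v, hv1, hv2⟩ := wit2 h.symm hb.symm
  exact ⟨v, S.maxV hu (cp_of_two (lineU hu) (hz.trans hv1.E) hb hv2.symm.swap), hv1.symm⟩

omit h5 [Fintype ι] in
lemma Sup.c {S : Ctx w} {b c : ι} {u z : D} (h : S.Sup c z) (hu : S.U b u) (hb : b ≠ c) :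
    w.C b u z := by
  obtain ⟨v, hv, hL⟩ := h
  exact (hL.symm.c_dj ((S.cp hu hv).two hb).symm.swap.dj hb.symm).symm

omit h5 [Fintype ι] in
lemma Sup.line {S : Ctx w} {c : ι} {z : D} (h : S.Sup c z) : w.E c S.X z := by
  obtain ⟨v, hv, hL⟩ := h
  exact (lineV hv).trans hL.E

lemma sup_of_l (S : Ctx w) {c : ι} {z : D} (h : w.L c S.X z) : S.Sup c z := by
  obtain ⟨b, hb, -⟩ := fresh h5.out c c c c
  obtain ⟨u, hu⟩ := S.exU b
  exact sup_of_c hu hb h.E ((lineU hu).apl (h.ap hb)).c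

lemma l_of_sup {S : Ctx w} {c : ι} {z : D} (h : S.Sup c z) (h' : S.swap.Sup c z) :
    w.L c S.X z := by
  obtain ⟨d, hd, -⟩ := fresh h5.out c c c c
  obtain ⟨u, hu⟩ := S.exU d
  obtain ⟨v, hv⟩ := S.exV d
  have e1 : w.C d u z := h.c hu hd
  have e2 : w.C d v z := h'.c hv hd
  have e3 : w.St u z := (S.cp hu hv).star.1.st_c e2
  exact h.line.l ((lineU hu).symm.apl (e3.ap e1)).st

lemma sup_of_st {S : Ctx w} {c d : ι} {v z : D} (hv : S.V d v) (hd : d ≠ c) (hz : w.E c S.X z)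
    (h : w.St v z) : S.Sup c z := by
  obtain ⟨j, hjc, hjd, -⟩ := fresh h5.out c d c c
  obtain ⟨k, hkc, hkd, hkj, -⟩ := fresh h5.out c d j c
  obtain ⟨p, hp1, hp2⟩ := wit3 h.symm hkj.symm hjc hkc
  obtain ⟨a, u, _, _, hu, -⟩ := S.ne
  have hc : w.Cp S.X c p a u := Cp.same2 h5.out (hz.trans hp1.E) hd.symm
    (hp2.c hjc.symm hkc.symm) (hp2.c hjd.symm hkd.symm) (S.cp hu hv).symm
  exact ⟨p, S.maxV hu hc.symm, hp1.symm⟩

/-- relative apartness is unchanged by a short move off the support -/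
lemma Sup.moveV {c : ι} {S T : Ctx w} {z : D} (hs : S.Sup c z) (h : Tr c S T) (hy : S.V c T.X) :
    T.Sup c z := by
  have hz : w.E c T.X z := h.1.symm.trans hs.line
  obtain ⟨v, hv, hL⟩ := hs
  obtain ⟨b, hb, -⟩ := fresh h5.out c c c c
  obtain ⟨u, hu⟩ := S.exU b
  obtain ⟨u', hu1, hu2⟩ := meet (w := w) hb.symm u T.X
  have hu' : T.U b u' := h.U hu hb.symm hb.symm hu2.symm hu1
  obtain ⟨R, hR, htr⟩ := exists_tr b S (lineU hu)
  have hRx : R.U b S.X := htr.revU (hR ▸ hu)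
  have hRv : R.V c u' := htr.V hy hb hb (hR ▸ hu1) hu2.symm
  have hdj : w.Dj c b v u' := by
    refine dj_of_c fun e hec heb => ?_
    obtain ⟨t, ht1, ht2⟩ := meet (w := w) hec u S.X
    have ht : S.U c t := moveU hu ht2.symm ht1 heb hec
    have hRt : R.U e t := moveU hRx (hR ▸ ht1) ht2.symm hb.symm hec.symm
    exact (S.cp ht hv).star.1.symm.c_dj ((R.cp hRt hRv).two hec).swap.dj hec.symm
  exact sup_of_c hu' hb hz (hL.symm.c_dj hdj hb.symm).symm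

/-- relative apartness is symmetric along a line -/
lemma Sup.symm {c : ι} {S T : Ctx w} (hs : S.Sup c T.X) (h : Tr c S T) : T.Sup c S.X := by
  obtain ⟨v, hv, hL⟩ := hs
  obtain ⟨b, hb, -⟩ := fresh h5.out c c c c
  obtain ⟨u, hu⟩ := S.exU b
  obtain ⟨u', hu1, hu2⟩ := meet (w := w) hb.symm u T.X
  have hu' : T.U b u' := h.U hu hb.symm hb.symm hu2.symm hu1
  obtain ⟨t, ht1, ht2⟩ := meet (w := w) hb.symm u v
  have e1 : w.L c t u' := hL.proj ht2.symm hu2.symm (ht1.symm.trans hu1) hb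
  have e2 : w.Two b c S.X t :=
    ((S.cp hu hv).two hb).symm.rect h5.out hb (lineV hv).symm (lineU hu) ht2.symm ht1.symm
  exact sup_of_c hu' hb h.1.symm (e1.symm.c_dj e2.swap.symm.dj hb.symm)

lemma Inc.on {S T : Ctx w} (h : Inc S T) (d : ι) : ∃ u v, S.U d u ∧ T.V d v ∧ w.L d u v := by
  obtain ⟨hX, c, u, v, hu, hv, hL⟩ := h
  obtain ⟨f, hfc, hfd, -⟩ := fresh h5.out c d c c
  obtain ⟨u', hu1, hu2⟩ := meet (w := w) hfd u S.X
  obtain ⟨v', hv1, hv2⟩ := meet (w := w) hfd v S.X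
  exact ⟨u', v', moveU hu hu2.symm hu1 hfc hfd, moveV hv (hX ▸ hv2.symm) hv1 hfc hfd,
    hL.proj hu1 hv1 (hu2.trans hv2.symm) hfc⟩

lemma Inc.tr {f : ι} {S T S' T' : Ctx w} (h : Inc S T) (h1 : Tr f S S') (h2 : Tr f T T')
    (hX : S'.X = T'.X) : Inc S' T' := by
  obtain ⟨d, hd, -⟩ := fresh h5.out f f f f
  obtain ⟨u, v, hu, hv, hL⟩ := h.on d
  obtain ⟨u', hu1, hu2⟩ := meet (w := w) hd.symm u S'.X
  obtain ⟨v', hv1, hv2⟩ := meet (w := w) hd.symm v S'.X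
  exact ⟨hX, d, u', v', h1.U hu hd.symm hd.symm hu2.symm hu1,
    h2.V hv hd.symm hd.symm (hX ▸ hv2.symm) hv1, hL.proj hu1 hv1 (hu2.trans hv2.symm) hd.symm⟩

lemma Inc.sup {S T : Ctx w} (h : Inc S T) {c : ι} {z : D} (hs : S.Sup c z) : T.Sup c z := by
  obtain ⟨d, hd, -⟩ := fresh h5.out c c c c
  obtain ⟨u, v, hu, hv, hL⟩ := h.on d
  exact sup_of_st hv hd (h.1 ▸ hs.line) (hL.symm.st_c (hs.c hu hd))

lemma Sup.self_on {S : Ctx w} {c : ι} (h : S.Sup c S.X) (d : ι) : S.Sup d S.X := by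
  obtain ⟨v, hv, hL⟩ := h
  obtain ⟨f, hfc, hfd, -⟩ := fresh h5.out c d c c
  obtain ⟨v', hv1, hv2⟩ := meet (w := w) hfd v S.X
  exact ⟨v', Ctx.moveV hv hv2.symm hv1 hfc hfd, hL.proj hv1 (E.refl _ _) hv2 hfc⟩

lemma Sup.self_tr {S T : Ctx w} {c : ι} (h : S.Sup c S.X) (htr : Tr c S T) : T.Sup c T.X := by
  obtain ⟨d, hd, -⟩ := fresh h5.out c c c c
  obtain ⟨v, hv, hL⟩ := h.self_on d
  obtain ⟨v', hv1, hv2⟩ := meet (w := w) hd.symm v T.X
  have : T.Sup d T.X :=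
    ⟨v', htr.V hv hd.symm hd.symm hv2.symm hv1, hL.proj hv1 htr.1 hv2 hd.symm⟩
  exact this.self_on c

end Ctx

end Pool.Agent.H867Z.Lyn
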