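import Mathlib

/-!
The Lyndon algebras `L(m,0)` and their weak representations.
-/

set_option autoImplicit false

namespace Pool.Agent.H867Z.Lyn

universe u

/-- Composition of two atoms of a Lyndon algebra whose diversity atoms are indexed by `ι`:
`none` is the identity atom `1'` and `some i` is the diversity atom `a_i`.
`1';y = y`, `a_i;1' = a_i`, `a_i;a_i = 1' + a_i`, and `a_i;a_j` is the sum of the `a_k` with
`k ≠ i, j` when `i ≠ j`. -/
def atomComp {ι : Type} : Option ι → Option ι → Set (Option ι)
  | none, y => {y}
  | some i, none => {some i}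
  | some i, some j =>
      {z | (i = j ∧ (z = none ∨ z = some i)) ∨ (i ≠ j ∧ ∃ k, k ≠ i ∧ k ≠ j ∧ z = some k)}

/-- Composition of two elements (sets of atoms), the additive extension of `atomComp`. -/
def comp {ι : Type} (s t : Set (Option ι)) : Set (Option ι) :=
  {z | ∃ x ∈ s, ∃ y ∈ t, z ∈ atomComp x y}

/-- `θ` is a weak representation over `D` of `L(m,0)`, whose elements are the sets of atoms
`1', a_0, …, a_m` (Boolean operations of sets, converse the identity map): `θ` is injective and
sends `0`, `1`, meet, `1'`, converse and composition to the empty relation, `D × D`, intersection,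
the identity relation, relational inverse and relational composition. -/
structure IsWeakRep (m : ℕ) {D : Type u} (θ : Set (Option (Fin (m + 1))) → Set (D × D)) : Prop where
  inj : Function.Injective θ
  map_zero : θ ∅ = ∅
  map_one : θ Set.univ = Set.univ
  map_inter : ∀ s t, θ (s ∩ t) = θ s ∩ θ t
  map_ident : θ {none} = {p | p.1 = p.2}
  map_conv : ∀ s, θ s = {p | (p.2, p.1) ∈ θ s}
  map_comp : ∀ s t, θ (comp s t) = {p | ∃ y, (p.1, y) ∈ θ s ∧ (y, p.2) ∈ θ t}

/-- `L(m,0)` has a weak representation over some nonempty set. -/
def WeaklyRepresentable (m : ℕ) : Prop :=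
  ∃ (D : Type u) (θ : Set (Option (Fin (m + 1))) → Set (D × D)), Nonempty D ∧ IsWeakRep m θ

end Pool.Agent.H867Z.Lyn
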