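import Pool.Agent.H867Z.Lyn.Split
import Pool.Agent.H177R2.SD.Brc

/-!
An orthogonal array with `n + 1` constraints on `n` symbols gives a projective plane of order `n`;
there is none for `n = 6`.
-/

set_option autoImplicit false

namespace Pool.Agent.H867Z.Lyn

open Finset

section OA

variable {ι I : Type} [Fintype ι] [Fintype I]
  (κ : ι → I × I → I)

/-- incidence in the projective closure -/
def inc : (I × I) ⊕ ι → (ι × I) ⊕ Unit → Prop
  | Sum.inl p, Sum.inl l => κ l.1 p = l.2
  | Sum.inr d, Sum.inl l => d = l.1
  | Sum.inl _, Sum.inr _ => False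
  | Sum.inr _, Sum.inr _ => True

variable {κ}

omit [Fintype ι] in
open Classical in
lemma fibre_card (hκ : ∀ c d, c ≠ d → ∀ p q, κ c p = κ c q → κ d p = κ d q → p = q) {c d : ι}
    (hcd : c ≠ d) (k : I) : (univ.filter fun p => κ c p = k).card = Fintype.card I := by
  have hinj : Function.Injective fun p => (κ c p, κ d p) := fun p q h =>
    hκ c d hcd p q (congrArg Prod.fst h) (congrArg Prod.snd h)
  have hsurj := Finite.surjective_of_injective hinj
  rw [← card_univ]
  refine card_bij (fun p _ => κ d p) (fun _ _ => mem_univ _) ?_ ?_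
  · intro p hp q hq h
    simp only [mem_filter, mem_univ, true_and] at hp hq
    exact hκ c d hcd p q (hp.trans hq.symm) h
  · intro j _
    obtain ⟨p, hp⟩ := hsurj (k, j)
    exact ⟨p, by simpa using congrArg Prod.fst hp, congrArg Prod.snd hp⟩

open Classical in
lemma exists_join (hκ : ∀ c d, c ≠ d → ∀ p q, κ c p = κ c q → κ d p = κ d q → p = q)
    (hι : Fintype.card ι = 7) (hI : Fintype.card I = 6) {p q : I × I} (hpq : p ≠ q) :
    ∃ c, κ c p = κ c q := by
  have hfib : ∀ c k, (univ.filter fun p => κ c p = k).card = 6 := by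
    intro c k
    obtain ⟨d, hd⟩ := Fintype.exists_ne_of_one_lt_card (by omega : 1 < Fintype.card ι) c
    rw [fibre_card hκ hd.symm, hI]
  let S : ι → Finset (I × I) := fun c => (univ.filter fun r => κ c r = κ c p).erase p
  have hS : ∀ c, (S c).card = 5 := by
    intro c
    rw [card_erase_of_mem (by simp), hfib]
  have hdisj : ((univ : Finset ι) : Set ι).PairwiseDisjoint S := by
    intro c _ d _ hcd
    refine disjoint_left.2 fun r h1 h2 => ?_
    simp only [S, mem_erase, mem_filter, mem_univ, true_and] at h1 h2
    exact h1.1 (hκ c d hcd r p h1.2 h2.2)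
  have hc : (univ.biUnion S).card = 35 := by
    rw [card_biUnion hdisj]
    simp [hS, hι]
  have hsub : univ.biUnion S ⊆ univ.erase p := by
    intro r hr
    simp only [S, mem_biUnion, mem_erase, mem_filter, mem_univ, true_and] at hr
    obtain ⟨c, h1, -⟩ := hr
    simp [h1]
  have heq : univ.biUnion S = univ.erase p := by
    refine eq_of_subset_of_card_le hsub ?_
    rw [hc, card_erase_of_mem (mem_univ _), card_univ, Fintype.card_prod, hI]
  have : q ∈ univ.biUnion S := by
    rw [heq]
    simp [hpq.symm]
  simp only [S, mem_biUnion, mem_erase, mem_filter, mem_univ, true_and] at this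
  obtain ⟨c, -, h⟩ := this
  exact ⟨c, h.symm⟩

open Classical in
theorem no_oa (hκ : ∀ c d, c ≠ d → ∀ p q, κ c p = κ c q → κ d p = κ d q → p = q)
    (hι : Fintype.card ι = 7) (hI : Fintype.card I = 6) : False := by
  have hfib : ∀ c k, (univ.filter fun p => κ c p = k).card = 6 := by
    intro c k
    obtain ⟨d, hd⟩ := Fintype.exists_ne_of_one_lt_card (by omega : 1 < Fintype.card ι) c
    rw [fibre_card hκ hd.symm, hI]
  have h1 : ∀ l, (univ.filter fun x => inc κ x l).card = 7 := by
    rintro (⟨c, k⟩ | l)
    · have e : (univ.filter fun x => inc κ x (Sum.inl (c, k))) =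
          insert (Sum.inr c) ((univ.filter fun p => κ c p = k).image Sum.inl) := by
        ext (x | x) <;> simp [inc]
      rw [e, card_insert_of_notMem (by simp), card_image_of_injective _ Sum.inl_injective, hfib]
    · have e : (univ.filter fun x => inc κ x (Sum.inr l)) = univ.image Sum.inr := by
        ext (x | x) <;> simp [inc]
      rw [e, card_image_of_injective _ Sum.inr_injective, card_univ, hι]
  have h2 : ∀ x, (univ.filter fun l => inc κ x l).card = 7 := by
    rintro (x | x)
    · have e : (univ.filter fun l => inc κ (Sum.inl x) l) =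
          univ.image fun c => Sum.inl (c, κ c x) := by
        ext (⟨c, k⟩ | l) <;> simp [inc]
      rw [e, card_image_of_injective _ (fun c d h => by simpa using congrArg (Sum.map Prod.fst id) h),
        card_univ, hι]
    · have e : (univ.filter fun l => inc κ (Sum.inr x) l) =
          insert (Sum.inr ()) (univ.image fun k => Sum.inl (x, k)) := by
        ext (⟨c, k⟩ | l) <;> simp [inc]
      rw [e, card_insert_of_notMem (by simp),
        card_image_of_injective _ (fun c d h => by simpa using h), card_univ, hI]
  have h3 : ∀ x y, x ≠ y → (univ.filter fun l => inc κ x l ∧ inc κ y l).card = 1 := by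
    intro x y hxy
    rw [card_eq_one]
    rcases x with x | x <;> rcases y with y | y
    · have hne : x ≠ y := fun h => hxy (by rw [h])
      obtain ⟨c, hc⟩ := exists_join hκ hι hI hne
      refine ⟨Sum.inl (c, κ c x), ?_⟩
      ext (⟨d, k⟩ | l)
      · simp only [inc, mem_filter, mem_univ, true_and, mem_singleton, Sum.inl.injEq,
          Prod.mk.injEq]
        constructor
        · rintro ⟨e1, e2⟩
          have : d = c := by
            by_contra hdc
            exact hne (hκ d c hdc x y (e1.trans e2.symm) hc)
          subst this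
          exact ⟨rfl, e1.symm⟩
        · rintro ⟨rfl, rfl⟩
          exact ⟨rfl, hc.symm⟩
      · simp [inc]
    · refine ⟨Sum.inl (y, κ y x), ?_⟩
      ext (⟨d, k⟩ | l)
      · simp only [inc, mem_filter, mem_univ, true_and, mem_singleton, Sum.inl.injEq,
          Prod.mk.injEq]
        constructor
        · rintro ⟨e1, rfl⟩
          exact ⟨rfl, e1.symm⟩
        · rintro ⟨rfl, rfl⟩
          exact ⟨rfl, rfl⟩
      · simp [inc]
    · refine ⟨Sum.inl (x, κ x y), ?_⟩
      ext (⟨d, k⟩ | l)
      · simp only [inc, mem_filter, mem_univ, true_and, mem_singleton, Sum.inl.injEq,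
          Prod.mk.injEq]
        constructor
        · rintro ⟨rfl, e1⟩
          exact ⟨rfl, e1.symm⟩
        · rintro ⟨rfl, rfl⟩
          exact ⟨rfl, rfl⟩
      · simp [inc]
    · have hne : x ≠ y := fun h => hxy (by rw [h])
      refine ⟨Sum.inr (), ?_⟩
      ext (⟨d, k⟩ | l)
      · simp only [inc, mem_filter, mem_univ, true_and, mem_singleton, reduceCtorEq, iff_false]
        rintro ⟨rfl, e⟩
        exact hne e.symm
      · simp [inc]
  let eP : Fin 43 ≃ (I × I) ⊕ ι := (Fintype.equivFinOfCardEq (by simp [hι, hI])).symm
  let eB : Fin 43 ≃ (ι × I) ⊕ Unit := (Fintype.equivFinOfCardEq (by simp [hι, hI])).symm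
  have hd : Pool.Agent.H177R2.SD.IsSymmetricDesign 43 7 1 := by
    refine ⟨by norm_num, 7, fun i => univ.filter fun x => inc κ (eP x) (eB i), ?_, ?_, ?_⟩
    · intro i
      rw [← h1 (eB i)]
      exact card_equiv eP (by simp)
    · intro x
      rw [← h2 (eP x)]
      exact card_equiv eB (by simp)
    · intro x y hxy
      rw [← h3 (eP x) (eP y) (fun h => hxy (eP.injective h))]
      exact card_equiv eB (by simp)
  have := (Pool.Agent.H177R2.SD.brc_local (p := 3) hd (by norm_num) (by norm_num) (by norm_num)
    (by norm_num) (by norm_num) (by norm_num) (by norm_num)).2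
  revert this
  decide

end OA

universe u

theorem not_weak_six : ¬ WeaklyRepresentable.{u} 6 := by
  classical
  rintro ⟨D, θ, -, h⟩
  let w : WR (Fin 7) D :=
    { R := fun s x y => (x, y) ∈ θ s
      inter := fun {s t x y} h1 h2 => by
        rw [h.map_inter]
        exact ⟨h1, h2⟩
      mono := fun {s t x y} hst h1 => by
        have : θ s = θ s ∩ θ t := by rw [← h.map_inter, Set.inter_eq_left.2 hst]
        rw [this] at h1
        exact h1.2
      top := fun x y => by
        rw [h.map_one]
        trivial
      eq_iff := fun x y => by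
        rw [h.map_ident]
        rfl
      symm := fun {s x y} h1 => by
        rw [h.map_conv]
        exact h1
      cmp := fun {s t x y z} h1 h2 => by
        rw [h.map_comp]
        exact ⟨y, h1, h2⟩
      wit := fun {s t x z} h1 => by
        rw [h.map_comp] at h1
        exact h1
      bot := fun x y h1 => by
        rw [h.map_zero] at h1
        exact h1 }
  have hne : (θ {z | z = some 1}).Nonempty := by
    rw [Set.nonempty_iff_ne_empty, ← h.map_zero]
    intro he
    have := h.inj he
    have h2 : (some 1 : Option (Fin 7)) ∈ ({z | z = some 1} : Set (Option (Fin 7))) := rfl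
    rw [this] at h2
    exact h2
  obtain ⟨⟨o, A⟩, hA⟩ := hne
  haveI : Fact (5 ≤ Fintype.card (Fin 7)) := ⟨by simp⟩
  obtain ⟨κ, hκ⟩ := exists_oa (w := w) (a := 0) (b := 1) (by decide) (o := o) (A := A) hA
  exact no_oa hκ (by simp) (by simp)

end Pool.Agent.H867Z.Lyn
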