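import Pool.Agent.H867Z.Lyn.Sys

/-!
Nested splitting: a weak representation yields an orthogonal array.
-/

set_option autoImplicit false

namespace Pool.Agent.H867Z.Lyn

universe u

variable {ι : Type} {D : Type u}

open WR Ctx Relation

/-- a frame on the `a`-line through `o`, cut out by the lines through an apex `A` -/
structure Frame (w : WR ι D) (a b : ι) (o : D) where
  A : D
  g : ι → D
  hab : a ≠ b
  hA : w.L b o A
  g1 : ∀ k, k ≠ a → w.E k A (g k)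
  g2 : ∀ k, k ≠ a → w.E a o (g k)

namespace Frame

variable {w : WR ι D} {a b : ι} {o : D} (P : Frame w a b o)

lemma apA {s : D} (hs : w.E a o s) : w.Ap a s P.A := hs.apl (P.hA.ap P.hab)

lemma gL {k l : ι} (hk : k ≠ a) (hl : l ≠ a) (hkl : k ≠ l) : w.L a (P.g k) (P.g l) := by
  have e1 : w.L k P.A (P.g k) := (P.g1 k hk).l (P.apA (P.g2 k hk)).st.symm
  exact ((P.g2 k hk).symm.trans (P.g2 l hl)).l ((P.g1 l hl).apl (e1.ap hkl.symm)).st.symm

lemma gb : P.g b = o :=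
  (P.g2 b P.hab.symm).symm.eq ((P.g1 b P.hab.symm).symm.trans P.hA.E.symm) P.hab

variable [Fintype ι] [h5 : Fact (5 ≤ Fintype.card ι)]

lemma eq_g {y : D} {k : ι} (hy : w.E a o y) (hk : k ≠ a)
    (h : ∀ l, l ≠ a → l ≠ k → w.L a y (P.g l)) : y = P.g k := by
  obtain ⟨c, hck, hca, -⟩ := fresh h5.out k a a a
  have e1 : w.Two k a y P.A := two_of_ap hck hca fun e hek hea =>
    (P.g1 e hea).symm.apr ((h e hea hek).ap hea)
  exact ((e1.l (P.apA hy)).E.trans (P.g1 k hk)).eq (hy.symm.trans (P.g2 k hk)) hk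

/-- the frame lies in the consistent region and the support is not empty -/
def Good (Y : Sys w a b o) : Prop := (∀ k, k ≠ a → Y.N (P.g k)) ∧ ¬ (Y.F o).Sup a o

lemma new_sys {k k' : ι} {p : D} (hk : k ≠ a) (hk' : k' ≠ a) (hkk : k ≠ k')
    (hs : w.Star a (P.g k') (P.g k) p) :
    ∃ Y : Sys w a b o, (∀ l, l ≠ a → Y.N (P.g l)) ∧ (Y.F p).V a (P.g k) ∧
      ((Y.F o).Sup a o → p = P.g k') := by
  have hp : w.E a o p := (P.g2 k' hk').trans hs.2.1
  obtain ⟨Y, hN, hF⟩ := exists_sys P.hab o (gen hs.cp) hp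
  change Y.N p at hN
  change Y.F p = _ at hF
  have hU : (Y.F p).U a (P.g k') := by rw [hF]; exact hs.cp
  have hV : (Y.F p).V a (P.g k) := by rw [hF]; exact hs.cp
  have n1 := Y.closU hN hU
  have n2 := Y.closV hN hV
  have c1 : Y.Ga a (P.g k) (P.g k') := Y.conn n2 n1 (P.g2 k hk) (P.g2 k' hk')
  have c2 : Y.Ga k (P.g k) P.A :=
    c1.proj n2 n2 (E.refl k' _) hk' hkk.symm (P.g1 k' hk').symm (P.g1 k hk).symm
  refine ⟨Y, fun l hl => ?_, hV, fun h => ?_⟩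
  · by_cases hlk : l = k
    · exact hlk ▸ n2
    · exact ((c2.proj n2 n2 (E.refl l _) hlk hl (P.g1 l hl)
        ((P.g2 k hk).symm.trans (P.g2 l hl))).prop n2).1
  · have e1 : (Y.F o).Sup a (Y.F o).X := by rw [Y.base]; exact h
    obtain ⟨v, hv, hL⟩ := e1.self_tr (Y.line (E.refl _ _) hp)
    have e2 := ((Y.F p).cp hU hv).star
    rw [Y.base] at e2 hL
    exact e2.eq_of h5.out hL.symm

variable {P}

lemma sup_symm {Y : Sys w a b o} {x y : D} (hx : w.E a o x) (hy : w.E a o y)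
    (h : (Y.F x).Sup a y) : (Y.F y).Sup a x := by
  have e1 : (Y.F x).Sup a (Y.F y).X := by rw [Y.base]; exact h
  have := e1.symm (Y.line hx hy)
  rwa [Y.base] at this

lemma sup_l (Y : Sys w a b o) {x y : D} (h : w.L a x y) : (Y.F x).Sup a y :=
  sup_of_l _ (by rw [Y.base]; exact h)

lemma Good.glue {Y : Sys w a b o} (hY : P.Good Y) {y : D} (hy : w.E a o y) (ny : Y.N y) {k : ι}
    (hk : k ≠ a) : ∃ t, Y.Al a y t ∧ Y.swap.Al a t (P.g k) :=
  Sys.Ga.split (Y.conn ny (hY.1 k hk) hy (P.g2 k hk)) ny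

lemma Good.step {Y : Sys w a b o} (hY : P.Good Y) {y : D} (hy : w.E a o y) (ny : Y.N y)
    {k k' : ι} (hk : k ≠ a) (hk' : k' ≠ a) (hkk : k ≠ k') (h' : ¬ (Y.F (P.g k')).Sup a y) :
    ∃ Y' : Sys w a b o, P.Good Y' ∧
      (∀ s z, w.E a o s → (Y.F s).Sup a z → (Y'.F s).Sup a z) ∧ (Y'.F (P.g k)).Sup a y := by
  obtain ⟨t, ht1, ht2⟩ := hY.glue hy ny hk
  obtain ⟨nt, et⟩ := ht1.ga.prop ny
  have ht : w.E a o t := hy.trans et
  obtain ⟨p, hp1, hp2⟩ := wit1 (P.apA ht) hkk hk hk'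
  have hp : w.E a o p := ht.trans hp1.E
  have hs : w.Star a (P.g k') (P.g k) p :=
    star_of_apex (P.gL hk' hk hkk.symm) ((P.g2 k' hk').symm.trans hp) (P.g1 k' hk') (P.g1 k hk)
      hk' hk hp2.symm.swap
  obtain ⟨Y', hN, hV, hnt⟩ := P.new_sys hk hk' hkk hs
  have s1 : (Y.F y).Sup a p := (ht1.symm ny).sup nt (sup_l Y hp1)
  have good : P.Good Y' := by
    refine ⟨hN, fun h => h' ?_⟩
    rw [← hnt h]
    exact sup_symm hy hp s1
  have inc : Inc (Y.F (P.g k)) (Y'.F (P.g k)) := by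
    obtain ⟨u, hu, hL⟩ := ht2.sup nt (sup_l Y.swap hp1)
    have e1 := (Y'.line hp (P.g2 k hk)).revV (by rw [Y'.base]; exact hV)
    rw [Y'.base] at e1
    exact ⟨by rw [Y.base, Y'.base], a, u, p, hu, e1, hL⟩
  have mono : ∀ s z, w.E a o s → (Y.F s).Sup a z → (Y'.F s).Sup a z := fun s z hs h =>
    (inc.tr (Y.line (P.g2 k hk) hs) (Y'.line (P.g2 k hk) hs) (by rw [Y.base, Y'.base])).sup h
  refine ⟨Y', good, mono, ?_⟩
  exact (mono p y hp (sup_symm hy hp s1)).moveV (Y'.line hp (P.g2 k hk))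
    (by rw [Y'.base]; exact hV)

lemma Good.al_g {Y : Sys w a b o} (hY : P.Good Y) {y : D} (hy : w.E a o y) (ny : Y.N y) {k : ι}
    (hk : k ≠ a) (h : ∀ l, l ≠ a → l ≠ k → (Y.F (P.g l)).Sup a y) : Y.Al a y (P.g k) := by
  obtain ⟨t, ht1, ht2⟩ := hY.glue hy ny hk
  obtain ⟨nt, et⟩ := ht1.ga.prop ny
  have : t = P.g k := by
    refine P.eq_g (hy.trans et) hk fun l hl hlk => ?_
    have s1 : (Y.F t).Sup a (P.g l) := ht1.sup ny (sup_symm (P.g2 l hl) hy (h l hl hlk))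
    have s2 : (Y.swap.F t).Sup a (P.g l) :=
      (ht2.symm nt).sup (hY.1 k hk) (sup_l Y.swap (P.gL hk hl (Ne.symm hlk)))
    have := l_of_sup s1 s2
    rwa [Y.base] at this
  exact this ▸ ht1

lemma Good.inj {Y : Sys w a b o} (hY : P.Good Y) {k l : ι} (hk : k ≠ a) (hl : l ≠ a)
    (h : Y.Al a (P.g k) (P.g l)) : k = l := by
  by_contra hkl
  have s1 : (Y.F (P.g l)).Sup a (Y.F (P.g l)).X := by
    rw [Y.base]
    exact h.sup (hY.1 k hk) (sup_l Y (P.gL hk hl hkl))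
  have := s1.self_tr (Y.line (P.g2 l hl) (E.refl _ _))
  rw [Y.base] at this
  exact hY.2 this

variable (P)

lemma exists_good : ∃ Y : Sys w a b o, P.Good Y := by
  obtain ⟨k, hk, -⟩ := fresh h5.out a a a a
  obtain ⟨k', hk', hkk, -⟩ := fresh h5.out a k a a
  have hL := P.gL hk' hk hkk
  obtain ⟨Y, h1, -, h3⟩ := P.new_sys hk hk' hkk.symm (p := P.g k) ⟨hL, hL.E, fun _ _ h => h⟩
  refine ⟨Y, h1, fun h => ?_⟩
  rw [← h3 h] at hL
  exact hL.ne

theorem exists_decided {T : Type} [Fintype T] (y : T → D) (hy : ∀ t, w.E a o (y t))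
    (hN : ∀ Y : Sys w a b o, P.Good Y → ∀ t, Y.N (y t)) :
    ∃ Y : Sys w a b o, P.Good Y ∧ ∀ t, ∃ k, k ≠ a ∧ Y.Al a (y t) (P.g k) := by
  classical
  let μ : Sys w a b o → ℕ := fun Y =>
    (Finset.univ.filter fun q : T × ι => q.2 ≠ a ∧ ¬ (Y.F (P.g q.2)).Sup a (y q.1)).card
  have key : ∀ n, ∀ Y : Sys w a b o, P.Good Y → μ Y = n →
      ∃ Y : Sys w a b o, P.Good Y ∧ ∀ t, ∃ k, k ≠ a ∧ Y.Al a (y t) (P.g k) := by
    intro n
    induction n using Nat.strong_induction_on with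
    | _ n ih =>
      intro Y hY hn
      by_cases hc : ∃ t k k', k ≠ a ∧ k' ≠ a ∧ k ≠ k' ∧ ¬ (Y.F (P.g k)).Sup a (y t) ∧
          ¬ (Y.F (P.g k')).Sup a (y t)
      · obtain ⟨t, k, k', hk, hk', hkk, h1, h2⟩ := hc
        obtain ⟨Y', hY', hm, hs⟩ := hY.step (hy t) (hN Y hY t) hk hk' hkk h2
        refine ih (μ Y') ?_ Y' hY' rfl
        rw [← hn]
        refine Finset.card_lt_card ⟨fun q hq => ?_, fun hsub => ?_⟩
        · simp only [Finset.mem_filter, Finset.mem_univ, true_and] at hq ⊢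
          exact ⟨hq.1, fun h => hq.2 (hm _ _ (P.g2 _ hq.1) h)⟩
        · have := hsub (show (t, k) ∈ _ from by
            simp only [Finset.mem_filter, Finset.mem_univ, true_and]
            exact ⟨hk, h1⟩)
          simp only [Finset.mem_filter, Finset.mem_univ, true_and] at this
          exact this.2 hs
      · refine ⟨Y, hY, fun t => ?_⟩
        by_cases h1 : ∃ k, k ≠ a ∧ ¬ (Y.F (P.g k)).Sup a (y t)
        · obtain ⟨k, hk, h1⟩ := h1
          refine ⟨k, hk, hY.al_g (hy t) (hN Y hY t) hk fun l hl hlk => ?_⟩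
          by_contra h2
          exact hc ⟨t, l, k, hl, hk, hlk, h2, h1⟩
        · refine ⟨b, P.hab.symm, hY.al_g (hy t) (hN Y hY t) P.hab.symm fun l hl _ => ?_⟩
          by_contra h2
          exact h1 ⟨l, hl, h2⟩
  obtain ⟨Y, hY⟩ := P.exists_good
  exact key _ Y hY rfl

end Frame

variable {w : WR ι D} [Fintype ι] [h5 : Fact (5 ≤ Fintype.card ι)]

lemma Sys.Al.proj' {a b : ι} {o : D} {Y : Sys w a b o} {c c' f : ι} {x y x' y' : D}
    (h : Y.Al c x y) (hx : Y.N x) (hx' : Y.N x') (e1 : w.E f x x') (hc' : f ≠ c')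
    (e2 : w.E f y y') (e3 : w.E c' x' y') : Y.Al c' x' y' := by
  by_cases hc : f = c
  · subst hc
    have : x' = y' := (e1.symm.trans ((h.ga.prop hx).2.trans e2)).eq e3 hc'
    subst this
    exact ReflTransGen.refl
  · exact h.proj hx hx' e1 hc hc' e2 e3

theorem exists_oa {a b : ι} (hab : a ≠ b) {o A : D} (hA : w.L b o A) :
    ∃ κ : ι → {k // k ≠ a} × {k // k ≠ a} → {k // k ≠ a},
      ∀ c d, c ≠ d → ∀ p q, κ c p = κ c q → κ d p = κ d q → p = q := by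
  classical
  have hm : ∀ (c d : ι) (x y : D), ∃ z, c ≠ d → w.E c x z ∧ w.E d y z := by
    intro c d x y
    by_cases h : c = d
    · exact ⟨x, fun h' => (h' h).elim⟩
    · obtain ⟨z, h1, h2⟩ := meet (w := w) h x y
      exact ⟨z, fun _ => ⟨h1, h2.symm⟩⟩
  choose M hM using hm
  let P : Frame w a b o := ⟨A, fun k => M k a A o, hab, hA, fun k hk => (hM k a A o hk).1,
    fun k hk => (hM k a A o hk).2⟩
  obtain ⟨e, hea, heb, -⟩ := fresh h5.out a b a a
  let g' : ι → D := fun j => M e b (P.g j) o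
  have g'1 : ∀ j, w.E e (P.g j) (g' j) := fun j => (hM e b _ _ heb).1
  have g'2 : ∀ j, w.E b o (g' j) := fun j => (hM e b _ _ heb).2
  let I := {k // k ≠ a}
  let X : I × I → D := fun p => M b a (P.g p.1) (g' p.2)
  have X1 : ∀ p, w.E b (P.g p.1) (X p) := fun p => (hM b a _ _ hab.symm).1
  have X2 : ∀ p, w.E a (g' p.2) (X p) := fun p => (hM b a _ _ hab.symm).2
  let y : I × (I × I) → D := fun t => M t.1 a (X t.2) o
  have y1 : ∀ t, w.E t.1.1 (X t.2) (y t) := fun t => (hM _ a _ _ t.1.2).1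
  have y2 : ∀ t, w.E a o (y t) := fun t => (hM _ a _ _ t.1.2).2
  have no : ∀ Y : Sys w a b o, P.Good Y → Y.N o := fun Y hY => by
    have := hY.1 b hab.symm
    rwa [P.gb] at this
  have hN : ∀ Y : Sys w a b o, P.Good Y → ∀ t, Y.N (y t) := by
    rintro Y hY ⟨c, i, j⟩
    have ni := hY.1 i i.2
    have c1 : Y.Ga a o (P.g j) := Y.conn (no Y hY) (hY.1 j j.2) (E.refl _ _) (P.g2 j j.2)
    have c2 : Y.Ga b o (g' j) :=
      c1.proj (no Y hY) (no Y hY) (E.refl e _) hea heb (g'1 j) (g'2 j)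
    have c3 : Y.Ga b (P.g i) (X (i, j)) :=
      c2.proj (no Y hY) ni (P.g2 i i.2) hab hab (X2 (i, j)) (X1 (i, j))
    by_cases hcb : c.1 = b
    · exact Y.strip ni ((X1 (i, j)).trans (hcb ▸ y1 (c, i, j)))
    · exact ((c3.proj ni ni (E.refl c.1 _) hcb c.2 (y1 (c, i, j))
        ((P.g2 i i.2).symm.trans (y2 _))).prop ni).1
  obtain ⟨Y, hY, hdec⟩ := P.exists_decided y y2 hN
  choose k hk hal using hdec
  have nX : ∀ p, Y.N (X p) := fun p => Y.strip (hY.1 _ p.1.2) (X1 p)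
  have ng' : ∀ j, Y.N (g' j) := fun j => Y.strip (no Y hY) (g'2 j)
  let κ : ι → I × I → I := fun c p => if h : c = a then p.2 else ⟨k (⟨c, h⟩, p), hk _⟩
  have lnk : ∀ c d, c ≠ d → ∀ p q, κ c p = κ c q → ∀ W, w.E d (X p) W → w.E c (X q) W →
      Y.Al d (X p) W := by
    intro c d hcd p q h W h1 h2
    by_cases hca : c = a
    · subst hca
      have hj : p.2 = q.2 := by simpa [κ] using h
      have e1 : w.E c (X p) W := (X2 p).symm.trans ((hj ▸ X2 q).trans h2)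
      have : X p = W := e1.eq h1 hcd
      rw [← this]
      exact ReflTransGen.refl
    · have hk' : k (⟨c, hca⟩, p) = k (⟨c, hca⟩, q) := by
        simp only [κ, dif_neg hca] at h
        exact congrArg Subtype.val h
      have a1 := hal (⟨c, hca⟩, p)
      have a2 := (hal (⟨c, hca⟩, q)).symm (hN Y hY _)
      rw [← hk'] at a2
      have a3 : Y.Al a (y (⟨c, hca⟩, p)) (y (⟨c, hca⟩, q)) := ReflTransGen.trans a1 a2
      exact a3.proj (hN Y hY _) (nX p) (y1 (⟨c, hca⟩, p)).symm hca hcd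
        ((y1 (⟨c, hca⟩, q)).symm.trans h2) h1
  refine ⟨κ, fun c d hcd p q h1 h2 => ?_⟩
  obtain ⟨W, hW1, hW2⟩ := meet (w := w) hcd.symm (X p) (X q)
  have a1 : Y.Al d (X p) W := lnk c d hcd p q h1 W hW1 hW2.symm
  have a2 : Y.Al c (X q) W := lnk d c hcd.symm q p h2.symm W hW2.symm hW1
  obtain ⟨s, hs1, hs2⟩ := meet (w := w) hab.symm W o
  obtain ⟨t, ht1, ht2⟩ := meet (w := w) hab W o
  have b1 : Y.Al a (P.g p.1) s := a1.proj' (nX p) (hY.1 _ p.1.2) (X1 p).symm hab.symm hs1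
    ((P.g2 _ p.1.2).symm.trans hs2.symm)
  have b2 : Y.Al a (P.g q.1) s := a2.proj' (nX q) (hY.1 _ q.1.2) (X1 q).symm hab.symm hs1
    ((P.g2 _ q.1.2).symm.trans hs2.symm)
  have b3 : Y.Al b (g' p.2) t := a1.proj' (nX p) (ng' _) (X2 p).symm hab ht1
    ((g'2 _).symm.trans ht2.symm)
  have b4 : Y.Al b (g' q.2) t := a2.proj' (nX q) (ng' _) (X2 q).symm hab ht1
    ((g'2 _).symm.trans ht2.symm)
  have b5 : Y.Al b (g' p.2) (g' q.2) := ReflTransGen.trans b3 (b4.symm (ng' _))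
  have b6 : Y.Al a (P.g p.2) (P.g q.2) := b5.proj (ng' _) (hY.1 _ p.2.2) (g'1 _).symm heb hea
    (g'1 _).symm ((P.g2 _ p.2.2).symm.trans (P.g2 _ q.2.2))
  have b7 : Y.Al a (P.g p.1) (P.g q.1) := ReflTransGen.trans b1 (b2.symm (hY.1 _ q.1.2))
  exact Prod.ext (Subtype.ext (hY.inj p.1.2 q.1.2 b7)) (Subtype.ext (hY.inj p.2.2 q.2.2 b6))

end Pool.Agent.H867Z.Lyn
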