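import Pool.Agent.H867Z.Lyn.Ctx

/-!
Consistent systems of contexts on a strip of the net.
-/

set_option autoImplicit false

namespace Pool.Agent.H867Z.Lyn

universe u

variable {ι : Type} {D : Type u}

open WR Ctx Relation

/-- a system of contexts, consistent on the set `N` and along the `a`-line through `o` -/
structure Sys (w : WR ι D) (a b : ι) (o : D) where
  F : D → Ctx w
  N : D → Prop
  base : ∀ x, (F x).X = x
  cons : ∀ {c x y}, N x → N y → w.E c x y → Tr c (F x) (F y)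
  closU : ∀ {c x y}, N x → (F x).U c y → N y
  closV : ∀ {c x y}, N x → (F x).V c y → N y
  line : ∀ {x y}, w.E a o x → w.E a o y → Tr a (F x) (F y)
  conn : ∀ {x y}, N x → N y → w.E a o x → w.E a o y →
    ReflTransGen (fun s t => (F s).U a t ∨ (F s).V a t) x y
  strip : ∀ {x y}, N x → w.E b x y → N y

lemma rtg_mono {r p : D → D → Prop} (h : ∀ x y, r x y → p x y) {x y : D}
    (h1 : ReflTransGen r x y) : ReflTransGen p x y := by
  induction h1 with
  | refl => exact ReflTransGen.refl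
  | tail _ h2 ih => exact ih.tail (h _ _ h2)

variable {w : WR ι D} [Fintype ι] [h5 : Fact (5 ≤ Fintype.card ι)]

lemma par' {b c : ι} {S T S' T' : Ctx w} (h1 : Tr c S T) (h2 : Tr b S S') (h3 : Tr b T T')
    (hbc : b ≠ c) (hE : w.E c S'.X T'.X) (h : S.U c T.X ∨ S.V c T.X) :
    Tr c S' T' ∧ (S'.U c T'.X ∨ S'.V c T'.X) := by
  rcases h with h | h
  · exact ⟨(par h1 h2 h3 hbc hE h).1, Or.inl (par h1 h2 h3 hbc hE h).2⟩
  · have := par h1.swap h2.swap h3.swap hbc hE h
    exact ⟨this.1.unswap, Or.inr this.2⟩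

lemma tri' {a b c : ι} {S T R : Ctx w} (h1 : Tr c S T) (h2 : Tr b T R) (hab : a ≠ b) (hac : a ≠ c)
    (hbc : b ≠ c) (hE : w.E a S.X R.X) (h : S.U c T.X ∨ S.V c T.X) : Tr a S R := by
  rcases h with h | h
  · exact tri h1 h2 hab hac hbc (moveU h hE h2.1 hbc hab.symm)
  · exact (tri h1.swap h2.swap hab hac hbc (moveV h hE h2.1 hbc hab.symm)).unswap

theorem exists_sys {a b : ι} (hab : a ≠ b) (o : D) (S : Ctx w) (hS : w.E a o S.X) :
    ∃ Y : Sys w a b o, Y.N S.X ∧ Y.F S.X = S := by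
  have h0 : ∀ X : D, ∃ T : Ctx w, T.X = X ∧ ∃ T1 : Ctx w, Tr a S T1 ∧ Tr b T1 T := by
    intro X
    obtain ⟨s, hs1, hs2⟩ := meet (w := w) hab S.X X
    obtain ⟨T1, hT1, htr1⟩ := exists_tr a S hs1
    obtain ⟨T, hT, htr⟩ := exists_tr b T1 (hT1 ▸ hs2)
    exact ⟨T, hT, T1, htr1, htr⟩
  choose F hF T1 hT1 hT2 using h0
  have hl0 : ∀ s, w.E a o s → Tr a S (F s) := by
    intro s hs
    have p1 := (hT2 s).1
    rw [hF] at p1
    have e1 : (T1 s).X = s :=
      ((hT1 s).1.symm.trans (hS.symm.trans hs)).eq p1 hab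
    have e2 : T1 s = F s := (Tr.refl b (T1 s)).unique (hT2 s) (e1.trans (hF s).symm)
    exact e2 ▸ hT1 s
  have hl : ∀ {x y}, w.E a o x → w.E a o y → Tr a (F x) (F y) :=
    fun hx hy => (hl0 _ hx).symm.trans (hl0 _ hy)
  have hb : ∀ {x y}, w.E b x y → Tr b (F x) (F y) := by
    intro x y hxy
    have e0 : w.E b (T1 x).X (T1 y).X := by
      have p1 := (hT2 x).1
      have p2 := (hT2 y).1
      rw [hF] at p1 p2
      exact p1.trans (hxy.trans p2.symm)
    have e1 : (T1 x).X = (T1 y).X := ((hT1 x).1.symm.trans (hT1 y).1).eq e0 hab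
    have e2 : T1 x = T1 y := (hT1 x).unique (hT1 y) e1
    exact (hT2 x).symm.trans (e2 ▸ hT2 y)
  have hFS : F S.X = S := (hl0 _ hS).unique (Tr.refl a S) (hF _)
  set mv : D → D → Prop := fun s t => (F s).U a t ∨ (F s).V a t with hmv
  have mvE : ∀ {s t}, mv s t → w.E a s t := by
    intro s t h
    rcases h with h | h
    · exact hF s ▸ lineU h
    · exact hF s ▸ lineV h
  have chE : ∀ {s t}, ReflTransGen mv s t → w.E a s t := by
    intro s t h
    induction h with
    | refl => exact E.refl _ _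
    | tail _ h2 ih => exact ih.trans (mvE h2)
  have chS : ∀ {s t}, w.E a o s → ReflTransGen mv s t → ReflTransGen mv t s := by
    intro s t hs h
    induction h with
    | refl => exact ReflTransGen.refl
    | @tail p q h1 h2 ih =>
      have hp : w.E a o p := hs.trans (chE h1)
      have hq : w.E a o q := hp.trans (mvE h2)
      have htr := hl hp hq
      refine ReflTransGen.head ?_ ih
      rcases h2 with h2 | h2
      · have := htr.revU (by rw [hF]; exact h2)
        rw [hF] at this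
        exact Or.inl this
      · have := htr.revV (by rw [hF]; exact h2)
        rw [hF] at this
        exact Or.inr this
  have step : ∀ {p q X X' : D}, w.E a o p → mv p q → w.E b p X → w.E b q X' → w.E a X X' →
      Tr a (F X) (F X') ∧ ((F X).U a (F X').X ∨ (F X).V a (F X').X) := by
    intro p q X X' hp h hX hX' hE
    exact par' (hl hp (hp.trans (mvE h))) (hb hX) (hb hX') hab.symm (by rw [hF, hF]; exact hE)
      (by rw [hF]; exact h)
  have gc : ∀ {c : ι} {s s' : D}, c ≠ b → w.E a o s → ReflTransGen mv s s' → ∀ {X X' : D},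
      w.E b s X → w.E b s' X' → w.E c X X' → Tr c (F X) (F X') := by
    intro c s s' hcb hs h
    induction h with
    | refl =>
      intro X X' h1 h2 h3
      have : X = X' := h3.eq (h1.symm.trans h2) hcb
      subst this
      exact Tr.refl _ _
    | @tail p q h1 h2 ih =>
      intro X X' e1 e2 e3
      have hp : w.E a o p := hs.trans (chE h1)
      obtain ⟨Y, hY1, hY2⟩ := meet (w := w) hcb X p
      refine (ih e1 hY2.symm hY1).trans ?_
      by_cases hca : c = a
      · subst hca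
        exact (step hp h2 hY2.symm e2 (hY1.symm.trans e3)).1
      · obtain ⟨Z, hZ1, hZ2⟩ := meet (w := w) hab Y q
        have := step hp h2 hY2.symm hZ2.symm hZ1
        exact tri' this.1 (hb (hZ2.trans e2)) hcb hca hab.symm
          (by rw [hF, hF]; exact hY1.symm.trans e3) this.2
  have clos : ∀ {c x y}, (∃ s, ReflTransGen mv S.X s ∧ w.E b s x) →
      ((F x).U c y ∨ (F x).V c y) → ∃ s, ReflTransGen mv S.X s ∧ w.E b s y := by
    rintro c x y ⟨s, hs, hsx⟩ h
    by_cases hcb : c = b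
    · subst hcb
      refine ⟨s, hs, hsx.trans ?_⟩
      rcases h with h | h
      · exact hF x ▸ lineU h
      · exact hF x ▸ lineV h
    · obtain ⟨Z, hZ1, hZ2⟩ := meet (w := w) hab x y
      obtain ⟨t, ht1, ht2⟩ := meet (w := w) hab s y
      refine ⟨t, hs.tail ?_, ht2⟩
      rcases h with h | h
      · have e1 : (F x).U a Z := moveU h (by rw [hF]; exact hZ1) hZ2.symm (Ne.symm hcb) hab.symm
        exact Or.inl ((hb hsx.symm).U e1 hab.symm hab.symm (by rw [hF]; exact ht1)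
          (hZ2.trans ht2.symm))
      · have e1 : (F x).V a Z := moveV h (by rw [hF]; exact hZ1) hZ2.symm (Ne.symm hcb) hab.symm
        exact Or.inr ((hb hsx.symm).V e1 hab.symm hab.symm (by rw [hF]; exact ht1)
          (hZ2.trans ht2.symm))
  refine ⟨⟨F, fun x => ∃ s, ReflTransGen mv S.X s ∧ w.E b s x, hF, ?_, fun h1 h2 => clos h1 (Or.inl h2),
    fun h1 h2 => clos h1 (Or.inr h2), hl, ?_, ?_⟩, ⟨S.X, ReflTransGen.refl, E.refl _ _⟩, hFS⟩
  · rintro c x y ⟨s, hs, hsx⟩ ⟨t, ht, hty⟩ hE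
    by_cases hcb : c = b
    · subst hcb
      exact hb hE
    · exact gc hcb (hS.trans (chE hs)) ((chS hS hs).trans ht) hsx hty hE
  · rintro x y ⟨s, hs, hsx⟩ ⟨t, ht, hty⟩ hx hy
    have e1 : s = x := ((hS.trans (chE hs)).symm.trans hx).eq hsx hab
    have e2 : t = y := ((hS.trans (chE ht)).symm.trans hy).eq hty hab
    subst e1 e2
    exact (chS hS hs).trans ht
  · rintro x y ⟨s, hs, hsx⟩ h
    exact ⟨s, hs, hsx.trans h⟩

namespace Sys

variable {a b : ι} {o : D}

/-- the system with the two sides exchanged -/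
def swap (Y : Sys w a b o) : Sys w a b o where
  F := fun x => (Y.F x).swap
  N := Y.N
  base := Y.base
  cons := fun h1 h2 h3 => (Y.cons h1 h2 h3).swap
  closU := fun h1 h2 => Y.closV h1 h2
  closV := fun h1 h2 => Y.closU h1 h2
  line := fun h1 h2 => (Y.line h1 h2).swap
  conn := fun h1 h2 h3 h4 => rtg_mono (fun _ _ h => Or.symm h) (Y.conn h1 h2 h3 h4)
  strip := Y.strip

/-- chains of moves off the support -/
def Al (Y : Sys w a b o) (c : ι) : D → D → Prop := ReflTransGen fun s t => (Y.F s).V c t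

/-- chains of short moves -/
def Ga (Y : Sys w a b o) (c : ι) : D → D → Prop :=
  ReflTransGen fun s t => (Y.F s).U c t ∨ (Y.F s).V c t

variable {Y : Sys w a b o}

omit [Fintype ι] h5 in
lemma eV {c : ι} {x y : D} (h : (Y.F x).V c y) : w.E c x y := Y.base x ▸ lineV h

omit [Fintype ι] h5 in
lemma eU {c : ι} {x y : D} (h : (Y.F x).U c y) : w.E c x y := Y.base x ▸ lineU h

omit [Fintype ι] h5 in
lemma Ga.prop {c : ι} {x y : D} (h : Y.Ga c x y) (hx : Y.N x) : Y.N y ∧ w.E c x y := by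
  induction h with
  | refl => exact ⟨hx, E.refl _ _⟩
  | tail _ h2 ih =>
    rcases h2 with h2 | h2
    · exact ⟨Y.closU ih.1 h2, ih.2.trans (eU h2)⟩
    · exact ⟨Y.closV ih.1 h2, ih.2.trans (eV h2)⟩

omit [Fintype ι] h5 in
lemma Al.ga {c : ι} {x y : D} (h : Y.Al c x y) : Y.Ga c x y :=
  rtg_mono (fun _ _ h => Or.inr h) h

lemma revV {c : ι} {x y : D} (hx : Y.N x) (h : (Y.F x).V c y) : (Y.F y).V c x := by
  have := (Y.cons hx (Y.closV hx h) (eV h)).revV (by rw [Y.base]; exact h)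
  rwa [Y.base] at this

lemma revU {c : ι} {x y : D} (hx : Y.N x) (h : (Y.F x).U c y) : (Y.F y).U c x :=
  revV (Y := Y.swap) hx h

lemma Al.symm {c : ι} {x y : D} (h : Y.Al c x y) (hx : Y.N x) : Y.Al c y x := by
  induction h with
  | refl => exact ReflTransGen.refl
  | tail h1 h2 ih => exact ReflTransGen.head (revV ((Al.ga h1).prop hx).1 h2) ih

lemma projV {c c' f : ι} {x y x' y' : D} (hx : Y.N x) (hx' : Y.N x') (h : (Y.F x).V c y)
    (e1 : w.E f x x') (e2 : w.E f y y') (e3 : w.E c' x' y') (hc : f ≠ c) (hc' : f ≠ c') :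
    (Y.F x').V c' y' :=
  (Y.cons hx hx' e1).V h hc hc' (by rw [Y.base]; exact e3) e2

lemma projU {c c' f : ι} {x y x' y' : D} (hx : Y.N x) (hx' : Y.N x') (h : (Y.F x).U c y)
    (e1 : w.E f x x') (e2 : w.E f y y') (e3 : w.E c' x' y') (hc : f ≠ c) (hc' : f ≠ c') :
    (Y.F x').U c' y' :=
  projV (Y := Y.swap) hx hx' h e1 e2 e3 hc hc'

lemma Al.proj {c c' f : ι} {x y x' : D} (h : Y.Al c x y) (hx : Y.N x) (hx' : Y.N x')
    (e1 : w.E f x x') (hc : f ≠ c) (hc' : f ≠ c') :
    ∀ {y' : D}, w.E f y y' → w.E c' x' y' → Y.Al c' x' y' := by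
  induction h with
  | refl =>
    intro y' e2 e3
    have : x' = y' := (e1.symm.trans e2).eq e3 hc'
    subst this
    exact ReflTransGen.refl
  | @tail p q h1 h2 ih =>
    intro y' e2 e3
    obtain ⟨t, ht1, ht2⟩ := meet (w := w) hc' p x'
    have h3 := ih ht1 ht2.symm
    exact ReflTransGen.tail h3 (projV ((Al.ga h1).prop hx).1 ((Al.ga h3).prop hx').1 h2 ht1 e2
      (ht2.trans e3) hc hc')

lemma Ga.proj {c c' f : ι} {x y x' : D} (h : Y.Ga c x y) (hx : Y.N x) (hx' : Y.N x')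
    (e1 : w.E f x x') (hc : f ≠ c) (hc' : f ≠ c') :
    ∀ {y' : D}, w.E f y y' → w.E c' x' y' → Y.Ga c' x' y' := by
  induction h with
  | refl =>
    intro y' e2 e3
    have : x' = y' := (e1.symm.trans e2).eq e3 hc'
    subst this
    exact ReflTransGen.refl
  | @tail p q h1 h2 ih =>
    intro y' e2 e3
    obtain ⟨t, ht1, ht2⟩ := meet (w := w) hc' p x'
    have h3 := ih ht1 ht2.symm
    have n1 := (Ga.prop h1 hx).1
    have n2 := (Ga.prop h3 hx').1
    refine ReflTransGen.tail h3 ?_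
    rcases h2 with h2 | h2
    · exact Or.inl (projU n1 n2 h2 ht1 e2 (ht2.trans e3) hc hc')
    · exact Or.inr (projV n1 n2 h2 ht1 e2 (ht2.trans e3) hc hc')

lemma Al.sup {c : ι} {x y z : D} (h : Y.Al c x y) (hx : Y.N x) (hs : (Y.F x).Sup c z) :
    (Y.F y).Sup c z := by
  induction h with
  | refl => exact hs
  | tail h1 h2 ih =>
    have n1 := ((Al.ga h1).prop hx).1
    exact ih.moveV (Y.cons n1 (Y.closV n1 h2) (eV h2)) (by rw [Y.base]; exact h2)

lemma comm1 {c : ι} {x u z : D} (hx : Y.N x) (h1 : (Y.F x).U c u) (h2 : (Y.F u).V c z) :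
    ∃ v, (Y.F x).V c v ∧ (Y.F v).U c z := by
  obtain ⟨e, hec, -⟩ := fresh h5.out c c c c
  obtain ⟨d, hdc, hde, -⟩ := fresh h5.out c e c c
  have nu := Y.closU hx h1
  have nz := Y.closV nu h2
  obtain ⟨Q, hQ1, hQ2⟩ := meet (w := w) hde.symm u x
  have q1 : (Y.F x).U d Q := projU hx hx h1 (E.refl _ _) hQ1 hQ2.symm hec hde.symm
  have nQ := Y.closU hx q1
  obtain ⟨z1, hz1, hz2⟩ := meet (w := w) hec z Q
  have q2 : (Y.F Q).V c z1 := projV nu nQ h2 hQ1 hz1 hz2.symm hec hec
  obtain ⟨v, hv1, hv2⟩ := meet (w := w) hdc z1 x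
  have q3 : (Y.F x).V c v := projV nQ hx q2 hQ2 hv1 hv2.symm hdc hdc
  have q4 : (Y.F u).U e Q := projU nu nu (revU hx h1) (E.refl _ _) hQ2.symm hQ1 hdc hde
  have q5 : (Y.F z).U e z1 := projU nu nz q4 (eV h2) hz2.symm hz1 hec.symm hec.symm
  have q6 : (Y.F z).U c v := projU nz nz q5 (E.refl _ _) hv1
    ((eV h2).symm.trans ((eU h1).symm.trans hv2.symm)) hde hdc
  exact ⟨v, q3, revU nz q6⟩

lemma comm2 {c : ι} {x u : D} (hx : Y.N x) (h1 : Y.swap.Al c x u) :
    ∀ {z : D}, (Y.F u).V c z → ∃ v, (Y.F x).V c v ∧ Y.swap.Al c v z := by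
  induction h1 with
  | refl => exact fun h => ⟨_, h, ReflTransGen.refl⟩
  | tail h1 h2 ih =>
    intro z hz
    obtain ⟨t, ht1, ht2⟩ := comm1 (Y := Y) ((Al.ga h1).prop hx).1 h2 hz
    obtain ⟨v, hv1, hv2⟩ := ih ht1
    exact ⟨v, hv1, ReflTransGen.tail hv2 ht2⟩

lemma Ga.split {c : ι} {x y : D} (h : Y.Ga c x y) (hx : Y.N x) :
    ∃ t, Y.Al c x t ∧ Y.swap.Al c t y := by
  induction h with
  | refl => exact ⟨x, ReflTransGen.refl, ReflTransGen.refl⟩
  | tail _ h2 ih =>
    obtain ⟨t, ht1, ht2⟩ := ih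
    rcases h2 with h2 | h2
    · exact ⟨t, ht1, ReflTransGen.tail ht2 h2⟩
    · obtain ⟨v, hv1, hv2⟩ := comm2 ((Al.ga ht1).prop hx).1 ht2 h2
      exact ⟨v, ReflTransGen.tail ht1 hv1, hv2⟩

end Sys

end Pool.Agent.H867Z.Lyn
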